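import Pool.Agent.Helper8.GC.Defs

/-! Project GC, module GC-1: the crossing relation is closed, the crossing set is measurable. -/

namespace Pool.Agent.Helper8.GC

open MeasureTheory Set Filter Topology

theorem isClosed_cross :
    IsClosed {q : ((ℝ × ℝ) × (ℝ × ℝ)) × ((ℝ × ℝ) × (ℝ × ℝ)) |
      Cross q.1.1 q.1.2 q.2.1 q.2.2} := by
  have hcl : IsClosed {p : (unitInterval × unitInterval) ×
      (((ℝ × ℝ) × (ℝ × ℝ)) × ((ℝ × ℝ) × (ℝ × ℝ))) |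
      (1 - (p.1.1 : ℝ)) • p.2.1.1 + (p.1.1 : ℝ) • p.2.1.2 =
        (1 - (p.1.2 : ℝ)) • p.2.2.1 + (p.1.2 : ℝ) • p.2.2.2} := by
    apply isClosed_eq
    · fun_prop
    · fun_prop
  have himg := isClosedMap_snd_of_compactSpace _ hcl
  have heq : {q : ((ℝ × ℝ) × (ℝ × ℝ)) × ((ℝ × ℝ) × (ℝ × ℝ)) |
      Cross q.1.1 q.1.2 q.2.1 q.2.2} = Prod.snd '' {p : (unitInterval × unitInterval) ×
      (((ℝ × ℝ) × (ℝ × ℝ)) × ((ℝ × ℝ) × (ℝ × ℝ))) |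
      (1 - (p.1.1 : ℝ)) • p.2.1.1 + (p.1.1 : ℝ) • p.2.1.2 =
        (1 - (p.1.2 : ℝ)) • p.2.2.1 + (p.1.2 : ℝ) • p.2.2.2} := by
    ext q
    constructor
    · rintro ⟨r, h1, h2⟩
      rw [segment_eq_image] at h1 h2
      obtain ⟨a, ha, ha'⟩ := h1
      obtain ⟨b, hb, hb'⟩ := h2
      refine ⟨((⟨a, ha⟩, ⟨b, hb⟩), q), ?_, rfl⟩
      exact ha'.trans hb'.symm
    · rintro ⟨⟨⟨a, b⟩, q'⟩, h, rfl⟩
      refine ⟨(1 - (a : ℝ)) • q'.1.1 + (a : ℝ) • q'.1.2, ?_, ?_⟩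
      · rw [segment_eq_image]
        exact ⟨a, a.2, rfl⟩
      · rw [segment_eq_image]
        exact ⟨b, b.2, h.symm⟩
  rw [heq]
  exact himg

theorem measurableSet_crossing {Ω : Type*} [MeasurableSpace Ω] {f : Ω → ℝ × ℝ}
    (hf : Measurable f) : MeasurableSet (crossing f) := by
  have hm : Measurable fun q : (Ω × Ω) × (Ω × Ω) =>
      ((f q.1.1, f q.1.2), (f q.2.1, f q.2.2)) := by
    fun_prop
  exact hm isClosed_cross.measurableSet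

end Pool.Agent.Helper8.GC
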