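import Pool.Agent.Helper8.GC.Defs

/-! Planar geometry for project GC. -/

namespace Pool.Agent.Helper8.GC

open MeasureTheory Set

theorem cross_intro {x y z w : ℝ × ℝ} {α β γ δ : ℝ} (hα : 0 ≤ α) (hβ : 0 ≤ β)
    (hγ : 0 ≤ γ) (hδ : 0 ≤ δ) (hs : α + β = γ + δ) (hp : 0 < α + β)
    (h1 : α * x.1 + β * y.1 = γ * z.1 + δ * w.1)
    (h2 : α * x.2 + β * y.2 = γ * z.2 + δ * w.2) : Cross x y z w := by
  have hne : α + β ≠ 0 := hp.ne'
  have hne' : γ + δ ≠ 0 := by rw [← hs]; exact hne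
  have hpos' : 0 < γ + δ := by rw [← hs]; exact hp
  refine ⟨(α / (α + β)) • x + (β / (α + β)) • y, ?_, ?_⟩
  · exact ⟨α / (α + β), β / (α + β), by positivity, by positivity, by field_simp, rfl⟩
  · refine ⟨γ / (γ + δ), δ / (γ + δ), by positivity, by positivity, by field_simp, ?_⟩
    have e1 : (γ / (γ + δ)) * z.1 + (δ / (γ + δ)) * w.1 =
        (α / (α + β)) * x.1 + (β / (α + β)) * y.1 := by
      rw [← hs]
      have : (γ / (α + β)) * z.1 + (δ / (α + β)) * w.1 = (γ * z.1 + δ * w.1) / (α + β) := by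
        ring
      rw [this, ← h1]; ring
    have e2 : (γ / (γ + δ)) * z.2 + (δ / (γ + δ)) * w.2 =
        (α / (α + β)) * x.2 + (β / (α + β)) * y.2 := by
      rw [← hs]
      have : (γ / (α + β)) * z.2 + (δ / (α + β)) * w.2 = (γ * z.2 + δ * w.2) / (α + β) := by
        ring
      rw [this, ← h2]; ring
    ext
    · simpa using e1
    · simpa using e2

theorem cross_elim {x y z w : ℝ × ℝ} (h : Cross x y z w) :
    ∃ α β γ δ : ℝ, 0 ≤ α ∧ 0 ≤ β ∧ 0 ≤ γ ∧ 0 ≤ δ ∧ α + β = 1 ∧ γ + δ = 1 ∧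
      α * x.1 + β * y.1 = γ * z.1 + δ * w.1 ∧ α * x.2 + β * y.2 = γ * z.2 + δ * w.2 := by
  obtain ⟨p, ⟨α, β, hα, hβ, hab, hp⟩, ⟨γ, δ, hγ, hδ, hcd, hp'⟩⟩ := h
  refine ⟨α, β, γ, δ, hα, hβ, hγ, hδ, hab, hcd, ?_, ?_⟩
  · have := congrArg Prod.fst (hp.trans hp'.symm)
    simpa using this
  · have := congrArg Prod.snd (hp.trans hp'.symm)
    simpa using this

theorem Cross.symm {x y z w : ℝ × ℝ} (h : Cross x y z w) : Cross z w x y := by
  obtain ⟨p, h1, h2⟩ := h
  exact ⟨p, h2, h1⟩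

theorem Cross.flip_left {x y z w : ℝ × ℝ} (h : Cross x y z w) : Cross y x z w := by
  obtain ⟨p, h1, h2⟩ := h
  exact ⟨p, by rwa [segment_symm], h2⟩

theorem Cross.flip_right {x y z w : ℝ × ℝ} (h : Cross x y z w) : Cross x y w z := by
  obtain ⟨p, h1, h2⟩ := h
  exact ⟨p, h1, by rwa [segment_symm]⟩

theorem cross_of_det {a a' b b' : ℝ × ℝ} (h1 : 0 < det3 a a' b * det3 a a' b')
    (h2 : 0 < det3 b b' a * det3 b b' a') :
    (0 < det3 a a' b * det3 b b' a → Cross a b a' b') ∧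
      (det3 a a' b * det3 b b' a < 0 → Cross a b' a' b) := by
  -- the affine dependence `D4 a - D3 a' + D2 b - D1 b' = 0`
  have key0 : det3 b b' a' - det3 b b' a + det3 a a' b' - det3 a a' b = 0 := by
    unfold det3; ring
  have key1 : det3 b b' a' * a.1 - det3 b b' a * a'.1 + det3 a a' b' * b.1
      - det3 a a' b * b'.1 = 0 := by
    unfold det3; ring
  have key2 : det3 b b' a' * a.2 - det3 b b' a * a'.2 + det3 a a' b' * b.2
      - det3 a a' b * b'.2 = 0 := by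
    unfold det3; ring
  generalize det3 a a' b = D1 at *
  generalize det3 a a' b' = D2 at *
  generalize det3 b b' a = D3 at *
  generalize det3 b b' a' = D4 at *
  constructor
  · intro h3
    rcases pos_and_pos_or_neg_and_neg_of_mul_pos h3 with ⟨p1, p3⟩ | ⟨p1, p3⟩
    · have p2 : 0 < D2 := (pos_iff_pos_of_mul_pos h1).1 p1
      have p4 : 0 < D4 := (pos_iff_pos_of_mul_pos h2).1 p3
      exact cross_intro (α := D4) (β := D2) (γ := D3) (δ := D1) p4.le p2.le p3.le p1.le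
        (by linarith) (by linarith) (by linarith) (by linarith)
    · have p2 : D2 < 0 := (neg_iff_neg_of_mul_pos h1).1 p1
      have p4 : D4 < 0 := (neg_iff_neg_of_mul_pos h2).1 p3
      exact cross_intro (α := -D4) (β := -D2) (γ := -D3) (δ := -D1) (by linarith)
        (by linarith) (by linarith) (by linarith)
        (by linarith) (by linarith) (by linarith) (by linarith)
  · intro h3
    rcases mul_neg_iff.1 h3 with ⟨p1, p3⟩ | ⟨p1, p3⟩
    · have p2 : 0 < D2 := (pos_iff_pos_of_mul_pos h1).1 p1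
      have p4 : D4 < 0 := (neg_iff_neg_of_mul_pos h2).1 p3
      exact cross_intro (α := -D4) (β := D1) (γ := -D3) (δ := D2) (by linarith)
        (by linarith) (by linarith) (by linarith)
        (by linarith) (by linarith) (by linarith) (by linarith)
    · have p2 : D2 < 0 := (neg_iff_neg_of_mul_pos h1).1 p1
      have p4 : 0 < D4 := (pos_iff_pos_of_mul_pos h2).1 p3
      exact cross_intro (α := D4) (β := -D1) (γ := D3) (δ := -D2) (by linarith)
        (by linarith) (by linarith) (by linarith)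
        (by linarith) (by linarith) (by linarith) (by linarith)

/-- If `z w` meets the segment `x y` then `z, w` are on opposite sides of the line. -/
theorem opposite_of_cross {x y z w : ℝ × ℝ} (h : Cross x y z w) (h1 : det3 x y z ≠ 0)
    (h2 : det3 x y w ≠ 0) : det3 x y z * det3 x y w < 0 := by
  obtain ⟨α, β, γ, δ, hα, hβ, hγ, hδ, hab, hcd, e1, e2⟩ := cross_elim h
  have key : γ * det3 x y z + δ * det3 x y w = 0 := by
    have hα' : α = 1 - β := by linarith
    have hγ' : γ = 1 - δ := by linarith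
    subst hα' hγ'
    unfold det3
    have : (1 - δ) * ((y.1 - x.1) * (z.2 - x.2) - (y.2 - x.2) * (z.1 - x.1)) +
        δ * ((y.1 - x.1) * (w.2 - x.2) - (y.2 - x.2) * (w.1 - x.1)) =
        (y.1 - x.1) * (((1 - δ) * z.2 + δ * w.2) - x.2) -
        (y.2 - x.2) * (((1 - δ) * z.1 + δ * w.1) - x.1) := by ring
    rw [this, ← e1, ← e2]; ring
  by_contra hcon
  have hge : 0 < det3 x y z * det3 x y w :=
    lt_of_le_of_ne (not_lt.1 hcon) (mul_ne_zero h1 h2).symm
  rcases pos_and_pos_or_neg_and_neg_of_mul_pos hge with ⟨p, q⟩ | ⟨p, q⟩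
  · nlinarith [mul_nonneg hγ p.le, mul_nonneg hδ q.le, mul_pos p q]
  · nlinarith [mul_nonneg hγ (neg_pos.2 p).le, mul_nonneg hδ (neg_pos.2 q).le]

theorem not_cross_swap {x y x' y' : ℝ × ℝ} (h1 : det3 x y x' ≠ 0) (h2 : det3 x y y' ≠ 0)
    (h3 : det3 x x' y' ≠ 0) (h4 : det3 y x' y' ≠ 0) :
    ¬ (Cross x y x' y' ∧ Cross x y' x' y) := by
  rintro ⟨hc, hc'⟩
  have s1 : det3 x y x' * det3 x y y' < 0 := opposite_of_cross hc h1 h2
  have r1 : det3 x' y' x = det3 x x' y' := by unfold det3; ring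
  have r2 : det3 x' y' y = det3 y x' y' := by unfold det3; ring
  have s2 : det3 x' y' x * det3 x' y' y < 0 :=
    opposite_of_cross hc.symm (by rw [r1]; exact h3) (by rw [r2]; exact h4)
  have r3 : det3 x y' x' = - det3 x x' y' := by unfold det3; ring
  have r4 : det3 x y' y = - det3 x y y' := by unfold det3; ring
  have s3 : det3 x y' x' * det3 x y' y < 0 :=
    opposite_of_cross hc' (by rw [r3]; exact neg_ne_zero.2 h3) (by rw [r4]; exact neg_ne_zero.2 h2)
  have r5 : det3 x' y x = - det3 x y x' := by unfold det3; ring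
  have r6 : det3 x' y y' = - det3 y x' y' := by unfold det3; ring
  have s4 : det3 x' y x * det3 x' y y' < 0 :=
    opposite_of_cross hc'.symm (by rw [r5]; exact neg_ne_zero.2 h1)
      (by rw [r6]; exact neg_ne_zero.2 h4)
  rw [r1, r2] at s2
  rw [r3, r4] at s3
  rw [r5, r6] at s4
  have key0 : det3 y x' y' - det3 x x' y' + det3 x y y' - det3 x y x' = 0 := by
    unfold det3; ring
  generalize det3 x y x' = A at *
  generalize det3 x y y' = B at *
  generalize det3 x x' y' = C at *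
  generalize det3 y x' y' = D at *
  rcases mul_neg_iff.1 s1 with ⟨p, q⟩ | ⟨p, q⟩
  · have hC : 0 < C := by nlinarith
    have hD : D < 0 := by nlinarith
    linarith
  · have hC : C < 0 := by nlinarith
    have hD : 0 < D := by nlinarith
    linarith

/-- Two pairs of points separated by a vertical line: not both lines can separate. -/
theorem not_both_separate {a a' b b' : ℝ × ℝ} {t : ℝ} (ha : a.1 < t) (ha' : a'.1 < t)
    (hb : t < b.1) (hb' : t < b'.1) :
    ¬ (det3 a a' b * det3 a a' b' < 0 ∧ det3 b b' a * det3 b b' a' < 0) := by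
  rintro ⟨h1, h2⟩
  have key0 : det3 b b' a' - det3 b b' a + det3 a a' b' - det3 a a' b = 0 := by
    unfold det3; ring
  have key1 : det3 b b' a' * a.1 - det3 b b' a * a'.1 + det3 a a' b' * b.1
      - det3 a a' b * b'.1 = 0 := by
    unfold det3; ring
  generalize det3 a a' b = D1 at *
  generalize det3 a a' b' = D2 at *
  generalize det3 b b' a = D3 at *
  generalize det3 b b' a' = D4 at *
  have key2 : D4 * (a.1 - t) - D3 * (a'.1 - t) + D2 * (b.1 - t) - D1 * (b'.1 - t) = 0 := by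
    linear_combination key1 - t * key0
  rcases mul_neg_iff.1 h1 with ⟨p1, p2⟩ | ⟨p1, p2⟩ <;>
  rcases mul_neg_iff.1 h2 with ⟨p3, p4⟩ | ⟨p3, p4⟩
  · -- D1>0, D2<0, D3>0, D4<0 : sum of coefficients negative
    linarith
  · -- D1>0, D2<0, D3<0, D4>0
    nlinarith [mul_pos p4 (sub_pos.2 ha), mul_pos (neg_pos.2 p3) (sub_pos.2 ha'),
      mul_pos (neg_pos.2 p2) (sub_pos.2 hb), mul_pos p1 (sub_pos.2 hb')]
  · -- D1<0, D2>0, D3>0, D4<0
    nlinarith [mul_pos (neg_pos.2 p4) (sub_pos.2 ha), mul_pos p3 (sub_pos.2 ha'),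
      mul_pos p2 (sub_pos.2 hb), mul_pos (neg_pos.2 p1) (sub_pos.2 hb')]
  · linarith

/-- The parity argument: three points on the left, three on the right. -/
theorem parity {a b : Fin 3 → ℝ × ℝ} {t : ℝ} (ha : ∀ i, (a i).1 < t) (hb : ∀ i, t < (b i).1)
    (hne : ∀ i j k, i < j → det3 (a i) (a j) (b k) ≠ 0)
    (hne' : ∀ i j k, i < j → det3 (b i) (b j) (a k) ≠ 0) :
    ∃ i j k l : Fin 3, i < j ∧ k < l ∧
      0 < det3 (a i) (a j) (b k) * det3 (a i) (a j) (b l) ∧
      0 < det3 (b k) (b l) (a i) * det3 (b k) (b l) (a j) := by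
  by_contra hcon
  push_neg at hcon
  have neg : ∀ i j k l : Fin 3, i < j → k < l →
      (det3 (a i) (a j) (b k) * det3 (a i) (a j) (b l)) *
      (det3 (b k) (b l) (a i) * det3 (b k) (b l) (a j)) < 0 := by
    intro i j k l hij hkl
    have h1 := mul_ne_zero (hne i j k hij) (hne i j l hij)
    have h2 := mul_ne_zero (hne' k l i hkl) (hne' k l j hkl)
    have h3 := not_both_separate (ha i) (ha j) (hb k) (hb l)
    have h4 := hcon i j k l hij hkl
    rcases lt_or_gt_of_ne h1 with p | p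
    · have q : 0 < det3 (b k) (b l) (a i) * det3 (b k) (b l) (a j) := by
        rcases lt_or_gt_of_ne h2 with q | q
        · exact absurd ⟨p, q⟩ h3
        · exact q
      exact mul_neg_of_neg_of_pos p q
    · have q : det3 (b k) (b l) (a i) * det3 (b k) (b l) (a j) < 0 :=
        lt_of_le_of_ne (h4 p) h2
      exact mul_neg_of_pos_of_neg p q
  have h01 : (0 : Fin 3) < 1 := by decide
  have h02 : (0 : Fin 3) < 2 := by decide
  have h12 : (1 : Fin 3) < 2 := by decide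
  have n1 := neg 0 1 0 1 h01 h01
  have n2 := neg 0 1 0 2 h01 h02
  have n3 := neg 0 1 1 2 h01 h12
  have n4 := neg 0 2 0 1 h02 h01
  have n5 := neg 0 2 0 2 h02 h02
  have n6 := neg 0 2 1 2 h02 h12
  have n7 := neg 1 2 0 1 h12 h01
  have n8 := neg 1 2 0 2 h12 h02
  have n9 := neg 1 2 1 2 h12 h12
  have m2 := mul_pos_of_neg_of_neg n1 n2
  have m3 := mul_neg_of_pos_of_neg m2 n3
  have m4 := mul_pos_of_neg_of_neg m3 n4
  have m5 := mul_neg_of_pos_of_neg m4 n5
  have m6 := mul_pos_of_neg_of_neg m5 n6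
  have m7 := mul_neg_of_pos_of_neg m6 n7
  have m8 := mul_pos_of_neg_of_neg m7 n8
  have m9 := mul_neg_of_pos_of_neg m8 n9
  have hsq : ∀ u₀ u₁ u₂ u₃ u₄ u₅ u₆ u₇ u₈ v₀ v₁ v₂ v₃ v₄ v₅ v₆ v₇ v₈ : ℝ,
      ((u₀ * u₁) * (v₀ * v₁)) * ((u₀ * u₂) * (v₃ * v₄)) * ((u₁ * u₂) * (v₆ * v₇)) *
      ((u₃ * u₄) * (v₀ * v₂)) * ((u₃ * u₅) * (v₃ * v₅)) * ((u₄ * u₅) * (v₆ * v₈)) *
      ((u₆ * u₇) * (v₁ * v₂)) * ((u₆ * u₈) * (v₄ * v₅)) * ((u₇ * u₈) * (v₇ * v₈)) =
      (u₀ * u₁ * u₂ * u₃ * u₄ * u₅ * u₆ * u₇ * u₈ *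
        (v₀ * v₁ * v₂ * v₃ * v₄ * v₅ * v₆ * v₇ * v₈)) ^ 2 := by
    intros; ring
  rw [hsq] at m9
  exact absurd m9 (not_lt.2 (sq_nonneg _))

/-- A point below a chord. -/
theorem det3_pos_of_below {x y z : ℝ × ℝ} {s t : ℝ} (hxy : x.1 < y.1) (hyz : y.1 < z.1)
    (hx : s * x.1 + t < x.2) (hy : y.2 < s * y.1 + t) (hz : s * z.1 + t < z.2) :
    0 < det3 x y z := by
  have e : det3 x y z = (y.1 - x.1) * (z.2 - (s * z.1 + t)) +
      ((s * y.1 + t) - y.2) * (z.1 - x.1) + (x.2 - (s * x.1 + t)) * (z.1 - y.1) := by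
    unfold det3; ring
  rw [e]
  have h1 := mul_pos (sub_pos.2 hxy) (sub_pos.2 hz)
  have h2 := mul_pos (sub_pos.2 hy) (sub_pos.2 (hxy.trans hyz))
  have h3 := mul_pos (sub_pos.2 hx) (sub_pos.2 hyz)
  linarith

/-- A point above a chord. -/
theorem det3_neg_of_above {x y z : ℝ × ℝ} {s t : ℝ} (hxy : x.1 < y.1) (hyz : y.1 < z.1)
    (hx : x.2 < s * x.1 + t) (hy : s * y.1 + t < y.2) (hz : z.2 < s * z.1 + t) :
    det3 x y z < 0 := by
  have e : det3 x y z = - ((y.1 - x.1) * ((s * z.1 + t) - z.2) +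
      (y.2 - (s * y.1 + t)) * (z.1 - x.1) + ((s * x.1 + t) - x.2) * (z.1 - y.1)) := by
    unfold det3; ring
  rw [e]
  have h1 := mul_pos (sub_pos.2 hxy) (sub_pos.2 hz)
  have h2 := mul_pos (sub_pos.2 hy) (sub_pos.2 (hxy.trans hyz))
  have h3 := mul_pos (sub_pos.2 hx) (sub_pos.2 hyz)
  linarith

end Pool.Agent.Helper8.GC
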