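import Pool.Agent.Helper8.GC.Closed
import Pool.Agent.Helper8.GC.Geom

/-! Project GC: at most half of the pairs of edges between two sets cross. -/

namespace Pool.Agent.Helper8.GC

open MeasureTheory Set Filter

section
variable {Ω : Type*} [MeasurableSpace Ω]

lemma mp_inner (μ : Measure Ω) [IsProbabilityMeasure μ] :
    MeasurePreserving (fun p : Ω × (Ω × Ω) => (p.2.2, (p.2.1, p.1))) (μ.prod (μ.prod μ))
      (μ.prod (μ.prod μ)) := by
  have h1 : MeasurePreserving (Prod.swap : Ω × (Ω × Ω) → (Ω × Ω) × Ω) (μ.prod (μ.prod μ))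
    ((μ.prod μ).prod μ) := Measure.measurePreserving_swap
  have h2 := measurePreserving_prodAssoc μ μ μ
  have h3 : MeasurePreserving (Prod.map id Prod.swap : Ω × (Ω × Ω) → Ω × (Ω × Ω))
    (μ.prod (μ.prod μ)) (μ.prod (μ.prod μ)) :=
    (MeasurePreserving.id μ).prod Measure.measurePreserving_swap
  have h4 := h2.symm
  have h5 : MeasurePreserving (Prod.swap : (Ω × Ω) × Ω → Ω × (Ω × Ω)) ((μ.prod μ).prod μ)
    (μ.prod (μ.prod μ)) := Measure.measurePreserving_swap
  exact h5.comp (h4.comp (h3.comp (h2.comp h1)))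

/-- Exchange the second endpoints of the two edges. -/
def tau (q : (Ω × Ω) × (Ω × Ω)) : (Ω × Ω) × (Ω × Ω) := ((q.1.1, q.2.2), (q.2.1, q.1.2))

lemma mp_tau (μ : Measure Ω) [IsProbabilityMeasure μ] :
    MeasurePreserving (tau : (Ω × Ω) × (Ω × Ω) → (Ω × Ω) × (Ω × Ω))
      ((μ.prod μ).prod (μ.prod μ)) ((μ.prod μ).prod (μ.prod μ)) := by
  have h1 := measurePreserving_prodAssoc μ μ (μ.prod μ)
  have h2 := (MeasurePreserving.id μ).prod (mp_inner μ)
  exact h1.symm.comp (h2.comp h1)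

lemma ae_det {μ : Measure Ω} [IsProbabilityMeasure μ] {f : Ω → ℝ × ℝ} (hg : Generic μ f) :
    ∀ᵐ q : (Ω × Ω) × (Ω × Ω) ∂((μ.prod μ).prod (μ.prod μ)),
      det3 (f q.1.1) (f q.1.2) (f q.2.1) ≠ 0 ∧ det3 (f q.1.1) (f q.1.2) (f q.2.2) ≠ 0 ∧
      det3 (f q.1.1) (f q.2.1) (f q.2.2) ≠ 0 ∧ det3 (f q.1.2) (f q.2.1) (f q.2.2) ≠ 0 := by
  have hf : MeasurePreserving (Prod.fst : Ω × Ω → Ω) (μ.prod μ) μ := measurePreserving_fst
  have hs : MeasurePreserving (Prod.snd : Ω × Ω → Ω) (μ.prod μ) μ := measurePreserving_snd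
  have hid := MeasurePreserving.id (μ.prod μ)
  have ha := measurePreserving_prodAssoc μ μ μ
  have h1 := ha.comp (hid.prod hf)
  have h2 := ha.comp (hid.prod hs)
  have h3 := hf.prod hid
  have h4 := hs.prod hid
  filter_upwards [h1.quasiMeasurePreserving.ae hg, h2.quasiMeasurePreserving.ae hg,
    h3.quasiMeasurePreserving.ae hg, h4.quasiMeasurePreserving.ae hg] with q e1 e2 e3 e4
  exact ⟨e1, e2, e3, e4⟩

/-- At most half of the pairs of edges between `U` and `V` cross. -/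
theorem swap_bound {μ : Measure Ω} [IsProbabilityMeasure μ] {f : Ω → ℝ × ℝ} (hf : Measurable f)
    (hg : Generic μ f) {U V : Set Ω} (hU : MeasurableSet U) (hV : MeasurableSet V) :
    ((μ.prod μ).prod (μ.prod μ)).real (((U ×ˢ V) ×ˢ (U ×ˢ V)) ∩ crossing f) ≤
      (1 / 2) * (μ.real U * μ.real V) ^ 2 := by
  set ν := (μ.prod μ).prod (μ.prod μ) with hν
  set S : Set ((Ω × Ω) × (Ω × Ω)) := (U ×ˢ V) ×ˢ (U ×ˢ V) with hS
  set A := S ∩ crossing f with hA
  have hmS : MeasurableSet S := (hU.prod hV).prod (hU.prod hV)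
  have hmA : MeasurableSet A := hmS.inter (measurableSet_crossing hf)
  have hτ := mp_tau μ
  have hmB : MeasurableSet (tau ⁻¹' A) := hτ.measurable hmA
  have hB : ν.real (tau ⁻¹' A) = ν.real A := by
    unfold Measure.real
    rw [hτ.measure_preimage hmA.nullMeasurableSet]
  have hdis : AEDisjoint ν A (tau ⁻¹' A) := by
    have h := ae_det hg
    rw [← hν] at h
    refine measure_mono_null ?_ (ae_iff.1 h)
    intro q hq hq'
    exact not_cross_swap hq'.1 hq'.2.1 hq'.2.2.1 hq'.2.2.2 ⟨hq.1.2, hq.2.2⟩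
  have hsub : A ∪ tau ⁻¹' A ⊆ S := by
    rintro q (hq | hq)
    · exact hq.1
    · have h := hq.1
      rw [hS] at h ⊢
      exact ⟨⟨h.1.1, h.2.2⟩, ⟨h.2.1, h.1.2⟩⟩
  have hun : ν.real (A ∪ tau ⁻¹' A) = ν.real A + ν.real (tau ⁻¹' A) :=
    measureReal_union₀ hmB.nullMeasurableSet hdis
  have hle : ν.real (A ∪ tau ⁻¹' A) ≤ ν.real S := measureReal_mono hsub
  have hSe : ν.real S = (μ.real U * μ.real V) ^ 2 := by
    rw [hS, hν, measureReal_prod_prod, measureReal_prod_prod]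
    ring
  rw [hun, hB, hSe] at hle
  linarith

end

end Pool.Agent.Helper8.GC
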