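import Pool.Agent.Helper8.GC.Homog
import Pool.Agent.Helper8.GC.Closed
import Pool.Agent.Helper8.GC.Swap

/-! The bilinear form of the crossing density (project GC). -/

namespace Pool.Agent.Helper8.GC

open MeasureTheory Set

variable {Ω : Type*} [MeasurableSpace Ω]

/-- Bounded measurable functions. -/
def Bdd (u : Ω × Ω → ℝ) : Prop := Measurable u ∧ ∃ C, ∀ e, |u e| ≤ C

/-- The bilinear form of the crossing density. -/
noncomputable def bil (μ : Measure Ω) (f : Ω → ℝ × ℝ) (u v : Ω × Ω → ℝ) : ℝ :=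
  ∫ q : (Ω × Ω) × (Ω × Ω), u q.1 * v q.2 * (crossing f).indicator (fun _ => (1 : ℝ)) q
    ∂((μ.prod μ).prod (μ.prod μ))

theorem Bdd.add {u v : Ω × Ω → ℝ} (hu : Bdd u) (hv : Bdd v) : Bdd (fun e => u e + v e) := by
  obtain ⟨mu, C, hC⟩ := hu
  obtain ⟨mv, D, hD⟩ := hv
  exact ⟨mu.add mv, C + D, fun e => (abs_add_le _ _).trans (add_le_add (hC e) (hD e))⟩

theorem Bdd.smul {u : Ω × Ω → ℝ} (hu : Bdd u) (c : ℝ) : Bdd (fun e => c * u e) := by
  obtain ⟨mu, C, hC⟩ := hu
  exact ⟨mu.const_mul c, |c| * C, fun e => by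
    rw [abs_mul]; exact mul_le_mul_of_nonneg_left (hC e) (abs_nonneg c)⟩

theorem Bdd.swap {u : Ω × Ω → ℝ} (hu : Bdd u) : Bdd (fun e => u e.swap) := by
  obtain ⟨mu, C, hC⟩ := hu
  exact ⟨mu.comp measurable_swap, C, fun e => hC _⟩

theorem bdd_indicator {A : Set (Ω × Ω)} (hA : MeasurableSet A) :
    Bdd (A.indicator (fun _ => (1 : ℝ))) := by
  refine ⟨measurable_const.indicator hA, 1, fun e => ?_⟩
  by_cases h : e ∈ A <;> simp [h]

theorem IsGraphon.bdd {W : Ω → Ω → ℝ} (hW : IsGraphon W) : Bdd (fun e => W e.1 e.2) :=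
  ⟨hW.measurable, 1, fun e => abs_le.2 ⟨by linarith [hW.nonneg e.1 e.2], hW.le_one e.1 e.2⟩⟩

theorem integrable_bil {μ : Measure Ω} [IsProbabilityMeasure μ] {f : Ω → ℝ × ℝ}
    (hf : Measurable f) {u v : Ω × Ω → ℝ} (hu : Bdd u) (hv : Bdd v) :
    Integrable (fun q : (Ω × Ω) × (Ω × Ω) =>
      u q.1 * v q.2 * (crossing f).indicator (fun _ => (1 : ℝ)) q)
      ((μ.prod μ).prod (μ.prod μ)) := by
  obtain ⟨mu, C, hC⟩ := hu
  obtain ⟨mv, D, hD⟩ := hv
  refine Integrable.of_bound ?_ (C * D) (Filter.Eventually.of_forall fun q => ?_)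
  · exact (((mu.comp measurable_fst).mul (mv.comp measurable_snd)).mul
      (measurable_const.indicator (measurableSet_crossing hf))).aestronglyMeasurable
  · rw [Real.norm_eq_abs, abs_mul, abs_mul]
    have h1 : |(crossing f).indicator (fun _ => (1 : ℝ)) q| ≤ 1 := by
      by_cases h : q ∈ crossing f <;> simp [h]
    have h2 : |u q.1| * |v q.2| ≤ C * D :=
      mul_le_mul (hC _) (hD _) (abs_nonneg _) ((abs_nonneg _).trans (hC q.1))
    calc |u q.1| * |v q.2| * |(crossing f).indicator (fun _ => (1 : ℝ)) q|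
        ≤ |u q.1| * |v q.2| * 1 := mul_le_mul_of_nonneg_left h1 (by positivity)
      _ ≤ C * D := by rw [mul_one]; exact h2

theorem bil_add_left {μ : Measure Ω} [IsProbabilityMeasure μ] {f : Ω → ℝ × ℝ}
    (hf : Measurable f) {u u' v : Ω × Ω → ℝ} (hu : Bdd u) (hu' : Bdd u') (hv : Bdd v) :
    bil μ f (fun e => u e + u' e) v = bil μ f u v + bil μ f u' v := by
  unfold bil
  rw [← integral_add (integrable_bil hf hu hv) (integrable_bil hf hu' hv)]
  congr 1
  ext q
  ring

theorem bil_add_right {μ : Measure Ω} [IsProbabilityMeasure μ] {f : Ω → ℝ × ℝ}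
    (hf : Measurable f) {u v v' : Ω × Ω → ℝ} (hu : Bdd u) (hv : Bdd v) (hv' : Bdd v') :
    bil μ f u (fun e => v e + v' e) = bil μ f u v + bil μ f u v' := by
  unfold bil
  rw [← integral_add (integrable_bil hf hu hv) (integrable_bil hf hu hv')]
  congr 1
  ext q
  ring

theorem bil_smul_left {μ : Measure Ω} {f : Ω → ℝ × ℝ} {u v : Ω × Ω → ℝ} (c : ℝ) :
    bil μ f (fun e => c * u e) v = c * bil μ f u v := by
  unfold bil
  rw [← integral_const_mul]
  congr 1
  ext q
  ring

theorem bil_smul_right {μ : Measure Ω} {f : Ω → ℝ × ℝ} {u v : Ω × Ω → ℝ} (c : ℝ) :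
    bil μ f u (fun e => c * v e) = c * bil μ f u v := by
  unfold bil
  rw [← integral_const_mul]
  congr 1
  ext q
  ring

theorem crossing_swap_left {f : Ω → ℝ × ℝ} (e e' : Ω × Ω) :
    ((e.swap, e') ∈ crossing f) ↔ ((e, e') ∈ crossing f) := by
  unfold crossing
  exact ⟨fun h => Cross.flip_left h, fun h => Cross.flip_left h⟩

theorem crossing_swap_right {f : Ω → ℝ × ℝ} (e e' : Ω × Ω) :
    ((e, e'.swap) ∈ crossing f) ↔ ((e, e') ∈ crossing f) := by
  unfold crossing
  exact ⟨fun h => Cross.flip_right h, fun h => Cross.flip_right h⟩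

theorem bil_swap_left {μ : Measure Ω} [IsProbabilityMeasure μ] {f : Ω → ℝ × ℝ}
    {u v : Ω × Ω → ℝ} : bil μ f (fun e => u e.swap) v = bil μ f u v := by
  unfold bil
  have hmp : MeasurePreserving (Prod.map (Prod.swap : Ω × Ω → Ω × Ω) (id : Ω × Ω → Ω × Ω))
      ((μ.prod μ).prod (μ.prod μ)) ((μ.prod μ).prod (μ.prod μ)) :=
    (Measure.measurePreserving_swap).prod (MeasurePreserving.id _)
  have hemb : MeasurableEmbedding
      (Prod.map (Prod.swap : Ω × Ω → Ω × Ω) (id : Ω × Ω → Ω × Ω)) :=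
    ((MeasurableEquiv.prodComm (α := Ω) (β := Ω)).prodCongr
      (MeasurableEquiv.refl (Ω × Ω))).measurableEmbedding
  rw [← hmp.integral_comp hemb]
  congr 1
  ext q
  have h1 : (crossing f).indicator (fun _ => (1 : ℝ))
      (Prod.map (Prod.swap : Ω × Ω → Ω × Ω) id q) =
      (crossing f).indicator (fun _ => (1 : ℝ)) q := by
    have h := crossing_swap_left (f := f) q.1 q.2
    by_cases hq : q ∈ crossing f
    · rw [indicator_of_mem hq, indicator_of_mem]
      exact h.2 hq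
    · rw [indicator_of_notMem hq, indicator_of_notMem]
      exact fun h' => hq (h.1 h')
  rw [h1]
  rfl

theorem bil_swap_right {μ : Measure Ω} [IsProbabilityMeasure μ] {f : Ω → ℝ × ℝ}
    {u v : Ω × Ω → ℝ} : bil μ f u (fun e => v e.swap) = bil μ f u v := by
  unfold bil
  have hmp : MeasurePreserving (Prod.map (id : Ω × Ω → Ω × Ω) (Prod.swap : Ω × Ω → Ω × Ω))
      ((μ.prod μ).prod (μ.prod μ)) ((μ.prod μ).prod (μ.prod μ)) :=
    (MeasurePreserving.id _).prod (Measure.measurePreserving_swap)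
  have hemb : MeasurableEmbedding
      (Prod.map (id : Ω × Ω → Ω × Ω) (Prod.swap : Ω × Ω → Ω × Ω)) :=
    ((MeasurableEquiv.refl (Ω × Ω)).prodCongr
      (MeasurableEquiv.prodComm (α := Ω) (β := Ω))).measurableEmbedding
  rw [← hmp.integral_comp hemb]
  congr 1
  ext q
  have h1 : (crossing f).indicator (fun _ => (1 : ℝ))
      (Prod.map (id : Ω × Ω → Ω × Ω) Prod.swap q) =
      (crossing f).indicator (fun _ => (1 : ℝ)) q := by
    have h := crossing_swap_right (f := f) q.1 q.2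
    by_cases hq : q ∈ crossing f
    · rw [indicator_of_mem hq, indicator_of_mem]
      exact h.2 hq
    · rw [indicator_of_notMem hq, indicator_of_notMem]
      exact fun h' => hq (h.1 h')
  rw [h1]
  rfl

theorem bil_indicator {μ : Measure Ω} [IsProbabilityMeasure μ] {f : Ω → ℝ × ℝ}
    (hf : Measurable f) {A B : Set (Ω × Ω)} (hA : MeasurableSet A) (hB : MeasurableSet B) :
    bil μ f (A.indicator (fun _ => (1 : ℝ))) (B.indicator (fun _ => (1 : ℝ))) =
      ((μ.prod μ).prod (μ.prod μ)).real ((A ×ˢ B) ∩ crossing f) := by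
  unfold bil
  have e : (fun q : (Ω × Ω) × (Ω × Ω) => A.indicator (fun _ => (1 : ℝ)) q.1 *
      B.indicator (fun _ => (1 : ℝ)) q.2 * (crossing f).indicator (fun _ => (1 : ℝ)) q) =
      ((A ×ˢ B) ∩ crossing f).indicator (fun _ => (1 : ℝ)) := by
    ext q
    by_cases h1 : q.1 ∈ A <;> by_cases h2 : q.2 ∈ B <;> by_cases h3 : q ∈ crossing f <;>
      simp [h1, h2, h3, indicator]
  rw [e, integral_indicator ((hA.prod hB).inter (measurableSet_crossing hf))]
  simp

/-- Full crossing between two sets of pairs. -/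
theorem bil_indicator_full {μ : Measure Ω} [IsProbabilityMeasure μ] {f : Ω → ℝ × ℝ}
    (hf : Measurable f) {A B : Set (Ω × Ω)} (hA : MeasurableSet A) (hB : MeasurableSet B)
    (hfull : ∀ a ∈ A, ∀ b ∈ B, (a, b) ∈ crossing f) :
    bil μ f (A.indicator (fun _ => (1 : ℝ))) (B.indicator (fun _ => (1 : ℝ))) =
      (μ.prod μ).real A * (μ.prod μ).real B := by
  rw [bil_indicator hf hA hB]
  have e : (A ×ˢ B) ∩ crossing f = A ×ˢ B := by
    refine inter_eq_left.2 fun q hq => ?_
    exact hfull q.1 hq.1 q.2 hq.2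
  rw [e, measureReal_prod_prod]

end Pool.Agent.Helper8.GC
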