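import Pool.Agent.Helper8.GC.Split

/-!
# Project GC, module GC-2 (part 2)

A line which cuts two sets on different sides of a vertical line into pieces of relative
measure at least one third each.
-/

namespace Pool.Agent.Helper8.GC

open MeasureTheory Set Filter Topology

section
variable {Ω : Type*}

/-- The points below the line of slope `s` and height `t`. -/
private def Below (f : Ω → ℝ × ℝ) (s t : ℝ) : Set Ω := {ω | (f ω).2 < s * (f ω).1 + t}

/-- The points above the line of slope `s` and height `t`. -/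
private def Above (f : Ω → ℝ × ℝ) (s t : ℝ) : Set Ω := {ω | s * (f ω).1 + t < (f ω).2}

variable [MeasurableSpace Ω]

private theorem measurable_aff {f : Ω → ℝ × ℝ} (hf : Measurable f) (s t : ℝ) :
    Measurable fun ω => s * (f ω).1 + t :=
  ((measurable_fst.comp hf).const_mul s).add_const t

private theorem measurableSet_below {f : Ω → ℝ × ℝ} (hf : Measurable f) (s t : ℝ) :
    MeasurableSet (Below f s t) :=
  measurableSet_lt (measurable_snd.comp hf) (measurable_aff hf s t)

private theorem measurableSet_above {f : Ω → ℝ × ℝ} (hf : Measurable f) (s t : ℝ) :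
    MeasurableSet (Above f s t) :=
  measurableSet_lt (measurable_aff hf s t) (measurable_snd.comp hf)

private theorem null_line {μ : Measure Ω} {f : Ω → ℝ × ℝ}
    (hline : ∀ α β γ : ℝ, α ≠ 0 ∨ β ≠ 0 → μ {ω | α * (f ω).1 + β * (f ω).2 = γ} = 0)
    (s t : ℝ) : μ {ω | (f ω).2 - s * (f ω).1 = t} = 0 := by
  have h := hline (-s) 1 t (Or.inr one_ne_zero)
  have e : {ω | (f ω).2 - s * (f ω).1 = t} = {ω | -s * (f ω).1 + 1 * (f ω).2 = t} := by
    ext ω
    change (f ω).2 - s * (f ω).1 = t ↔ -s * (f ω).1 + 1 * (f ω).2 = t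
    constructor <;> intro h <;> linarith
  rw [e]
  exact h

private theorem continuous_below {μ : Measure Ω} [IsFiniteMeasure μ] {f : Ω → ℝ × ℝ}
    (hf : Measurable f)
    (hline : ∀ α β γ : ℝ, α ≠ 0 ∨ β ≠ 0 → μ {ω | α * (f ω).1 + β * (f ω).2 = γ} = 0)
    {X : Set Ω} (hX : MeasurableSet X) (t : ℝ) :
    Continuous fun s => μ.real (X ∩ Below f s t) := by
  have h := continuous_real_lt (μ := μ) hX (g := fun (s : ℝ) ω => (f ω).2 - (s * (f ω).1 + t))
    (fun ω => by fun_prop)
    (fun s => (measurable_snd.comp hf).sub (measurable_aff hf s t))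
    (fun s => by
      have e : {ω | (f ω).2 - (s * (f ω).1 + t) = 0} = {ω | (f ω).2 - s * (f ω).1 = t} := by
        ext ω
        change (f ω).2 - (s * (f ω).1 + t) = 0 ↔ (f ω).2 - s * (f ω).1 = t
        constructor <;> intro h <;> linarith
      rw [e]
      exact null_line hline s t)
  simp only [sub_lt_zero] at h
  exact h

private theorem continuous_above {μ : Measure Ω} [IsFiniteMeasure μ] {f : Ω → ℝ × ℝ}
    (hf : Measurable f)
    (hline : ∀ α β γ : ℝ, α ≠ 0 ∨ β ≠ 0 → μ {ω | α * (f ω).1 + β * (f ω).2 = γ} = 0)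
    {X : Set Ω} (hX : MeasurableSet X) (t : ℝ) :
    Continuous fun s => μ.real (X ∩ Above f s t) := by
  have h := continuous_real_lt (μ := μ) hX (g := fun (s : ℝ) ω => s * (f ω).1 + t - (f ω).2)
    (fun ω => by fun_prop)
    (fun s => (measurable_aff hf s t).sub (measurable_snd.comp hf))
    (fun s => by
      have e : {ω | s * (f ω).1 + t - (f ω).2 = 0} = {ω | (f ω).2 - s * (f ω).1 = t} := by
        ext ω
        change s * (f ω).1 + t - (f ω).2 = 0 ↔ (f ω).2 - s * (f ω).1 = t
        constructor <;> intro h <;> linarith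
      rw [e]
      exact null_line hline s t)
  simp only [sub_lt_zero] at h
  exact h

/-- The slopes for which some line has most of `X` below and most of `Z` above. -/
private def Bad (μ : Measure Ω) (f : Ω → ℝ × ℝ) (X Z : Set Ω) : Set ℝ :=
  {s | ∃ t, 3 / 5 * μ.real X < μ.real (X ∩ Below f s t) ∧
    3 / 5 * μ.real Z < μ.real (Z ∩ Above f s t)}

private theorem isOpen_bad {μ : Measure Ω} [IsFiniteMeasure μ] {f : Ω → ℝ × ℝ}
    (hf : Measurable f)
    (hline : ∀ α β γ : ℝ, α ≠ 0 ∨ β ≠ 0 → μ {ω | α * (f ω).1 + β * (f ω).2 = γ} = 0)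
    {X Z : Set Ω} (hX : MeasurableSet X) (hZ : MeasurableSet Z) : IsOpen (Bad μ f X Z) := by
  have e : Bad μ f X Z = ⋃ t, ({s | 3 / 5 * μ.real X < μ.real (X ∩ Below f s t)} ∩
      {s | 3 / 5 * μ.real Z < μ.real (Z ∩ Above f s t)}) := by
    ext s
    simp only [mem_iUnion]
    exact Iff.rfl
  rw [e]
  exact isOpen_iUnion fun t =>
    (isOpen_lt continuous_const (continuous_below hf hline hX t)).inter
      (isOpen_lt continuous_const (continuous_above hf hline hZ t))

/-- Two disjoint parts of a set of positive measure do not both have more than `3/5` of it. -/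
private theorem no_two {μ : Measure Ω} [IsFiniteMeasure μ] {X S S' : Set Ω}
    (hS : MeasurableSet S) (hd : Disjoint S S')
    (h1 : 3 / 5 * μ.real X < μ.real (X ∩ S)) (h2 : 3 / 5 * μ.real X < μ.real (X ∩ S')) :
    False := by
  have h3 : μ.real (X ∩ S') ≤ μ.real (X \ S) :=
    measureReal_mono fun ω hω => ⟨hω.1, fun h => (disjoint_left.mp hd) h hω.2⟩
  have h4 : μ.real (X ∩ S) + μ.real (X \ S) = μ.real X := measureReal_inter_add_sdiff hS
  have h5 : 0 ≤ μ.real X := measureReal_nonneg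
  linarith

omit [MeasurableSpace Ω] in
private theorem disjoint_below_above {f : Ω → ℝ × ℝ} {s t t' : ℝ} (h : t ≤ t') :
    Disjoint (Below f s t) (Above f s t') := by
  rw [disjoint_left]
  intro ω h1 h2
  have h1' : (f ω).2 < s * (f ω).1 + t := h1
  have h2' : s * (f ω).1 + t' < (f ω).2 := h2
  linarith

/-- For a steep line through a vertical line, one side fills all of the set. -/
private theorem tendsto_below {μ : Measure Ω} [IsFiniteMeasure μ] {f : Ω → ℝ × ℝ}
    (hf : Measurable f) {X : Set Ω} (hX : MeasurableSet X) (c : ℝ) {L : Filter ℝ}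
    [L.IsCountablyGenerated]
    (h : ∀ ω ∈ X, Tendsto (fun s => s * ((f ω).1 - c)) L atTop) :
    Tendsto (fun s => μ.real (X ∩ Below f s (-s * c))) L (𝓝 (μ.real X)) := by
  have := tendsto_real_inter (μ := μ) (L := L) hX
    (S := fun s => Below f s (-s * c)) (S' := univ)
    (fun s => measurableSet_below hf _ _) MeasurableSet.univ
    (Eventually.of_forall fun ω hω => by
      filter_upwards [(h ω hω).eventually (eventually_gt_atTop (f ω).2)] with s hs
      simp only [mem_univ, iff_true]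
      change (f ω).2 < s * (f ω).1 + -s * c
      linarith)
  simpa using this

private theorem tendsto_above {μ : Measure Ω} [IsFiniteMeasure μ] {f : Ω → ℝ × ℝ}
    (hf : Measurable f) {X : Set Ω} (hX : MeasurableSet X) (c : ℝ) {L : Filter ℝ}
    [L.IsCountablyGenerated]
    (h : ∀ ω ∈ X, Tendsto (fun s => s * ((f ω).1 - c)) L atBot) :
    Tendsto (fun s => μ.real (X ∩ Above f s (-s * c))) L (𝓝 (μ.real X)) := by
  have := tendsto_real_inter (μ := μ) (L := L) hX
    (S := fun s => Above f s (-s * c)) (S' := univ)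
    (fun s => measurableSet_above hf _ _) MeasurableSet.univ
    (Eventually.of_forall fun ω hω => by
      filter_upwards [(h ω hω).eventually (eventually_lt_atBot (f ω).2)] with s hs
      simp only [mem_univ, iff_true]
      change s * (f ω).1 + -s * c < (f ω).2
      linarith)
  simpa using this

/-- A filter along which a steep line separates `X` from `Z` gives a bad slope. -/
private theorem nonempty_bad {μ : Measure Ω} [IsFiniteMeasure μ] {f : Ω → ℝ × ℝ}
    (hf : Measurable f) {X Z : Set Ω} (hX : MeasurableSet X) (hZ : MeasurableSet Z) (c : ℝ)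
    {L : Filter ℝ} [L.IsCountablyGenerated] [L.NeBot]
    (hXc : ∀ ω ∈ X, Tendsto (fun s => s * ((f ω).1 - c)) L atTop)
    (hZc : ∀ ω ∈ Z, Tendsto (fun s => s * ((f ω).1 - c)) L atBot)
    (hX0 : 0 < μ.real X) (hZ0 : 0 < μ.real Z) : (Bad μ f X Z).Nonempty := by
  have h1 := (tendsto_below (μ := μ) hf hX c hXc).eventually
    (lt_mem_nhds (show 3 / 5 * μ.real X < μ.real X by linarith))
  have h2 := (tendsto_above (μ := μ) hf hZ c hZc).eventually
    (lt_mem_nhds (show 3 / 5 * μ.real Z < μ.real Z by linarith))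
  obtain ⟨s, hs1, hs2⟩ := (h1.and h2).exists
  exact ⟨s, -s * c, hs1, hs2⟩

end

theorem exists_bisector {Ω : Type*} [MeasurableSpace Ω] {μ : Measure Ω}
    [IsProbabilityMeasure μ] {f : Ω → ℝ × ℝ} (hf : Measurable f)
    (hline : ∀ α β γ : ℝ, α ≠ 0 ∨ β ≠ 0 → μ {ω | α * (f ω).1 + β * (f ω).2 = γ} = 0)
    {X Z : Set Ω} (hX : MeasurableSet X) (hZ : MeasurableSet Z) (c : ℝ)
    (hXc : ∀ ω ∈ X, (f ω).1 < c) (hZc : ∀ ω ∈ Z, c < (f ω).1)
    (hX0 : 0 < μ.real X) (hZ0 : 0 < μ.real Z) :
    ∃ s t : ℝ,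
      μ.real X / 3 ≤ μ.real (X ∩ {ω | (f ω).2 < s * (f ω).1 + t}) ∧
      μ.real X / 3 ≤ μ.real (X ∩ {ω | s * (f ω).1 + t < (f ω).2}) ∧
      μ.real Z / 3 ≤ μ.real (Z ∩ {ω | (f ω).2 < s * (f ω).1 + t}) ∧
      μ.real Z / 3 ≤ μ.real (Z ∩ {ω | s * (f ω).1 + t < (f ω).2}) := by
  -- a slope which is bad in neither way
  have hA : (Bad μ f X Z).Nonempty := nonempty_bad hf hX hZ c (L := atBot)
    (fun ω hω => by
      have h := sub_neg.mpr (hXc ω hω)
      exact tendsto_id.atBot_mul_const_of_neg h)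
    (fun ω hω => by
      have h := sub_pos.mpr (hZc ω hω)
      exact tendsto_id.atBot_mul_const h) hX0 hZ0
  have hB : (Bad μ f Z X).Nonempty := nonempty_bad hf hZ hX c (L := atTop)
    (fun ω hω => by
      have h := sub_pos.mpr (hZc ω hω)
      exact tendsto_id.atTop_mul_const h)
    (fun ω hω => by
      have h := sub_neg.mpr (hXc ω hω)
      exact tendsto_id.atTop_mul_const_of_neg h) hZ0 hX0
  have hs : ∃ s, s ∉ Bad μ f X Z ∧ s ∉ Bad μ f Z X := by
    by_contra hcon
    push Not at hcon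
    have hcov : (univ : Set ℝ) ⊆ Bad μ f X Z ∪ Bad μ f Z X := fun s _ => by
      by_cases h : s ∈ Bad μ f X Z
      · exact Or.inl h
      · exact Or.inr (hcon s h)
    obtain ⟨s, _, ⟨t, h1, h2⟩, ⟨t', h3, h4⟩⟩ := isPreconnected_univ
      (Bad μ f X Z) (Bad μ f Z X)
      (isOpen_bad hf hline hX hZ) (isOpen_bad hf hline hZ hX) hcov
      (by simpa using hA) (by simpa using hB)
    rcases le_total t t' with h | h
    · exact no_two (measurableSet_below hf s t) (disjoint_below_above h) h1 h4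
    · exact no_two (measurableSet_below hf s t') (disjoint_below_above h) h3 h2
  obtain ⟨s, hs1, hs2⟩ := hs
  have hφ : Measurable fun ω => (f ω).2 - s * (f ω).1 :=
    (measurable_snd.comp hf).sub ((measurable_fst.comp hf).const_mul s)
  have hno : ∀ t, μ {ω | (f ω).2 - s * (f ω).1 = t} = 0 := null_line hline s
  obtain ⟨a₁, a₂, ha, ha1, ha2, ha3⟩ := exists_three hφ hno hX hX0
  obtain ⟨b₁, b₂, hb, hb1, hb2, hb3⟩ := exists_three hφ hno hZ hZ0
  have eB : ∀ t, {ω | (f ω).2 - s * (f ω).1 < t} = {ω | (f ω).2 < s * (f ω).1 + t} := by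
    intro t
    ext ω
    change (f ω).2 - s * (f ω).1 < t ↔ (f ω).2 < s * (f ω).1 + t
    constructor <;> intro h <;> linarith
  have eA : ∀ t, {ω | t < (f ω).2 - s * (f ω).1} = {ω | s * (f ω).1 + t < (f ω).2} := by
    intro t
    ext ω
    change t < (f ω).2 - s * (f ω).1 ↔ s * (f ω).1 + t < (f ω).2
    constructor <;> intro h <;> linarith
  -- the measures of the half planes are monotone
  have mB : ∀ (Y : Set Ω) {t t' : ℝ}, t ≤ t' →
      μ.real (Y ∩ {ω | (f ω).2 < s * (f ω).1 + t}) ≤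
        μ.real (Y ∩ {ω | (f ω).2 < s * (f ω).1 + t'}) := fun Y t t' h =>
    measureReal_mono (inter_subset_inter_right _ fun ω (hω : (f ω).2 < s * (f ω).1 + t) =>
      show (f ω).2 < s * (f ω).1 + t' by linarith)
  have mA : ∀ (Y : Set Ω) {t t' : ℝ}, t ≤ t' →
      μ.real (Y ∩ {ω | s * (f ω).1 + t' < (f ω).2}) ≤
        μ.real (Y ∩ {ω | s * (f ω).1 + t < (f ω).2}) := fun Y t t' h =>
    measureReal_mono (inter_subset_inter_right _ fun ω (hω : s * (f ω).1 + t' < (f ω).2) =>
      show s * (f ω).1 + t < (f ω).2 by linarith)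
  have hsplit : ∀ {Y : Set Ω}, MeasurableSet Y → ∀ t,
      μ.real (Y ∩ {ω | (f ω).2 < s * (f ω).1 + t}) +
        μ.real (Y ∩ {ω | s * (f ω).1 + t < (f ω).2}) = μ.real Y := by
    intro Y hY t
    have h1 : μ.real (Y ∩ Below f s t) + μ.real (Y \ Below f s t) = μ.real Y :=
      measureReal_inter_add_sdiff (measurableSet_below hf s t)
    have h2 : μ.real (Y \ Below f s t) = μ.real (Y ∩ Above f s t) := by
      refine measureReal_congr ?_
      have : ∀ᵐ ω ∂μ, ω ∉ {ω | (f ω).2 - s * (f ω).1 = t} :=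
        measure_eq_zero_iff_ae_notMem.mp (hno t)
      filter_upwards [this] with ω hω
      have hne : (f ω).2 - s * (f ω).1 ≠ t := hω
      refine propext ?_
      change (ω ∈ Y ∧ ¬ ((f ω).2 < s * (f ω).1 + t)) ↔ (ω ∈ Y ∧ s * (f ω).1 + t < (f ω).2)
      refine and_congr_right fun _ => ⟨fun h => ?_, fun h h' => by linarith⟩
      push Not at h
      refine lt_of_le_of_ne h fun h' => hne (by linarith)
    rw [h2] at h1
    exact h1
  rw [eB] at ha1 hb1
  rw [eA] at ha3 hb3
  have hXa : ∀ t, a₂ ≤ t → 3 / 5 * μ.real X < μ.real (X ∩ Below f s t) := by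
    intro t ht
    have h1 := hsplit hX a₂
    have h2 : μ.real (X ∩ {ω | (f ω).2 < s * (f ω).1 + a₂}) ≤ μ.real (X ∩ Below f s t) :=
      mB X ht
    linarith
  have hZb : ∀ t, b₂ ≤ t → 3 / 5 * μ.real Z < μ.real (Z ∩ Below f s t) := by
    intro t ht
    have h1 := hsplit hZ b₂
    have h2 : μ.real (Z ∩ {ω | (f ω).2 < s * (f ω).1 + b₂}) ≤ μ.real (Z ∩ Below f s t) :=
      mB Z ht
    linarith
  have hXa' : ∀ t, t ≤ a₁ → 3 / 5 * μ.real X < μ.real (X ∩ Above f s t) := by
    intro t ht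
    have h1 := hsplit hX a₁
    have h2 : μ.real (X ∩ {ω | s * (f ω).1 + a₁ < (f ω).2}) ≤ μ.real (X ∩ Above f s t) :=
      mA X ht
    linarith
  have hZb' : ∀ t, t ≤ b₁ → 3 / 5 * μ.real Z < μ.real (Z ∩ Above f s t) := by
    intro t ht
    have h1 := hsplit hZ b₁
    have h2 : μ.real (Z ∩ {ω | s * (f ω).1 + b₁ < (f ω).2}) ≤ μ.real (Z ∩ Above f s t) :=
      mA Z ht
    linarith
  have h1 : b₁ ≤ a₂ := by
    by_contra h
    push Not at h
    exact hs1 ⟨a₂, hXa a₂ le_rfl, hZb' a₂ h.le⟩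
  have h2 : a₁ ≤ b₂ := by
    by_contra h
    push Not at h
    exact hs2 ⟨b₂, hZb b₂ le_rfl, hXa' b₂ h.le⟩
  refine ⟨s, max a₁ b₁, ?_, ?_, ?_, ?_⟩
  · rw [← ha1]
    exact mB X (le_max_left _ _)
  · rw [← ha3]
    exact mA X (max_le ha.le h1)
  · rw [← hb1]
    exact mB Z (le_max_right _ _)
  · rw [← hb3]
    exact mA Z (max_le h2 hb.le)

end Pool.Agent.Helper8.GC
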