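import Mathlib

/-!
# Project GC (MP_7bfbd3_co): definitions

Rectilinear crossing density of graphons; everything over a probability space `Ω`,
at the end `Ω = unitInterval`.
-/

namespace Pool.Agent.Helper8.GC

open MeasureTheory Set

/-- The closed segments `xy` and `zw` of the plane meet. -/
def Cross (x y z w : ℝ × ℝ) : Prop :=
  (segment ℝ x y ∩ segment ℝ z w).Nonempty

/-- Orientation of three points of the plane. -/
def det3 (a b c : ℝ × ℝ) : ℝ :=
  (b.1 - a.1) * (c.2 - a.2) - (b.2 - a.2) * (c.1 - a.1)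

section
variable {Ω : Type*} [MeasurableSpace Ω]

/-- A graphon on `Ω`: symmetric, measurable, with values in `[0,1]`. -/
structure IsGraphon (W : Ω → Ω → ℝ) : Prop where
  measurable : Measurable fun e : Ω × Ω => W e.1 e.2
  symm : ∀ x y, W x y = W y x
  nonneg : ∀ x y, 0 ≤ W x y
  le_one : ∀ x y, W x y ≤ 1

/-- A bounded measurable map to the plane. -/
structure IsDrawing (f : Ω → ℝ × ℝ) : Prop where
  measurable : Measurable f
  bounded : Bornology.IsBounded (range f)

/-- The quadruples `((x,y),(z,w))` for which the segments `f x f y` and `f z f w` meet. -/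
def crossing (f : Ω → ℝ × ℝ) : Set ((Ω × Ω) × (Ω × Ω)) :=
  {q | Cross (f q.1.1) (f q.1.2) (f q.2.1) (f q.2.2)}

/-- The integral of `W(x,y)` over all pairs. -/
noncomputable def mass (μ : Measure Ω) (W : Ω → Ω → ℝ) : ℝ :=
  ∫ e : Ω × Ω, W e.1 e.2 ∂(μ.prod μ)

/-- The rectilinear crossing density of `W` for the drawing `f`. -/
noncomputable def cdf (μ : Measure Ω) (W : Ω → Ω → ℝ) (f : Ω → ℝ × ℝ) : ℝ :=
  (1 / 8) * ∫ q : (Ω × Ω) × (Ω × Ω), W q.1.1 q.1.2 * W q.2.1 q.2.2 *
    (crossing f).indicator (fun _ => (1 : ℝ)) q ∂((μ.prod μ).prod (μ.prod μ))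

/-- The rectilinear crossing density of `W`: the infimum over all drawings. -/
noncomputable def cd (μ : Measure Ω) (W : Ω → Ω → ℝ) : ℝ :=
  ⨅ f : {f : Ω → ℝ × ℝ // IsDrawing f}, cdf μ W f.1

/-- Almost no triple of points of the drawing is collinear. -/
def Generic (μ : Measure Ω) (f : Ω → ℝ × ℝ) : Prop :=
  ∀ᵐ p : Ω × Ω × Ω ∂(μ.prod (μ.prod μ)), det3 (f p.1) (f p.2.1) (f p.2.2) ≠ 0

/-- Every set of pairs of positive measure is dense in some product of disjoint sets. -/
def HasDensity (μ : Measure Ω) : Prop :=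
  ∀ E : Set (Ω × Ω), MeasurableSet E → 0 < (μ.prod μ) E → ∀ η : ℝ, 0 < η →
    ∃ P Q : Set Ω, MeasurableSet P ∧ MeasurableSet Q ∧ Disjoint P Q ∧
      0 < μ.real P ∧ 0 < μ.real Q ∧
      (μ.prod μ).real ((P ×ˢ Q) \ E) ≤ η * (μ.real P * μ.real Q)

end

end Pool.Agent.Helper8.GC
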