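import Pool.Agent.Helper8.GC.Defs

/-!
# Project GC: the unit interval has the density property
-/

namespace Pool.Agent.Helper8.GC

open MeasureTheory Set Filter Topology

/-- the inclusion of the square -/
private def ii : unitInterval × unitInterval → ℝ × ℝ := Prod.map Subtype.val Subtype.val

private theorem emb_ii : MeasurableEmbedding ii := by
  have h : MeasurableEmbedding (Subtype.val : unitInterval → ℝ) :=
    MeasurableEmbedding.subtype_coe measurableSet_Icc
  exact h.prodMap h

private theorem map_ii :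
    ((volume : Measure unitInterval).prod (volume : Measure unitInterval)).map ii =
      (volume : Measure (ℝ × ℝ)).restrict (Icc (0 : ℝ) 1 ×ˢ Icc (0 : ℝ) 1) := by
  have h0 : (volume : Measure unitInterval).map (Subtype.val : unitInterval → ℝ) =
      (volume : Measure ℝ).restrict (Icc (0 : ℝ) 1) :=
    map_comap_subtype_coe measurableSet_Icc volume
  have h1 := Measure.map_prod_map (volume : Measure unitInterval) (volume : Measure unitInterval)
    (measurable_subtype_coe : Measurable (Subtype.val : unitInterval → ℝ))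
    (measurable_subtype_coe : Measurable (Subtype.val : unitInterval → ℝ))
  rw [h0] at h1
  rw [show ii = Prod.map Subtype.val Subtype.val from rfl, ← h1, Measure.prod_restrict,
    ← Measure.volume_eq_prod]

private theorem real_pre (F : Set (ℝ × ℝ)) :
    ((volume : Measure unitInterval).prod (volume : Measure unitInterval)).real (ii ⁻¹' F) =
      (volume : Measure (ℝ × ℝ)).real (F ∩ (Icc (0 : ℝ) 1 ×ˢ Icc (0 : ℝ) 1)) := by
  have h1 := emb_ii.map_apply
    ((volume : Measure unitInterval).prod (volume : Measure unitInterval)) F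
  rw [map_ii, Measure.restrict_apply' (measurableSet_Icc.prod measurableSet_Icc)] at h1
  simp only [Measure.real, h1]

private theorem diag_null : (volume : Measure (ℝ × ℝ)) {z : ℝ × ℝ | z.1 = z.2} = 0 := by
  rw [Measure.volume_eq_prod, Measure.measure_prod_null (measurableSet_eq_fun measurable_fst
    measurable_snd)]
  filter_upwards with x
  have : (Prod.mk x ⁻¹' {z : ℝ × ℝ | z.1 = z.2}) = {x} := by
    ext y
    simp [eq_comm]
  rw [this]
  simp

theorem hasDensity_interval : HasDensity (volume : Measure unitInterval) := by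
  intro E hE hpos η hη
  set ν : Measure (unitInterval × unitInterval) :=
    (volume : Measure unitInterval).prod (volume : Measure unitInterval) with hν
  set E1 : Set (ℝ × ℝ) := ii '' E with hE1
  set I2 : Set (ℝ × ℝ) := Icc (0 : ℝ) 1 ×ˢ Icc (0 : ℝ) 1 with hI2
  have hE1m : MeasurableSet E1 := emb_ii.measurableSet_image.2 hE
  have hE1sub : E1 ⊆ I2 := by
    rintro _ ⟨x, _, rfl⟩
    exact ⟨x.1.2, x.2.2⟩
  have hpre : ii ⁻¹' E1 = E := emb_ii.injective.preimage_image E
  have hE1pos : (volume : Measure (ℝ × ℝ)) E1 ≠ 0 := by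
    have h1 := emb_ii.map_apply ν E1
    rw [hpre, hν, map_ii, Measure.restrict_apply' (measurableSet_Icc.prod measurableSet_Icc),
      inter_eq_left.2 hE1sub] at h1
    rw [h1]
    exact hpos.ne'
  -- a density point
  have hne : (ae ((volume : Measure (ℝ × ℝ)).restrict E1)).NeBot := by
    rw [ae_neBot]
    intro h
    exact hE1pos (Measure.restrict_eq_zero.1 h)
  have hd := IsUnifLocDoublingMeasure.ae_tendsto_measure_inter_div
    (volume : Measure (ℝ × ℝ)) E1 1
  have hdiag : ∀ᵐ z : ℝ × ℝ ∂((volume : Measure (ℝ × ℝ)).restrict E1), z.1 ≠ z.2 := by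
    apply ae_restrict_of_ae
    rw [ae_iff]
    simpa using diag_null
  obtain ⟨z, hz1, hz2⟩ := (hd.and hdiag).exists
  have hz3 := hz1 (fun _ : ℝ => z) (fun r : ℝ => r) (l := 𝓝[>] 0) tendsto_id (by
    filter_upwards [self_mem_nhdsWithin] with r hr
    have : (0 : ℝ) < r := hr
    simp [this.le])
  set η' : ℝ := η / (1 + η) with hη'
  have h1η : 0 < 1 + η := by linarith
  have hη'0 : 0 < η' := by positivity
  have hη'1 : η' < 1 := by
    rw [hη', div_lt_one h1η]
    linarith
  have hkey : η' = η * (1 - η') := by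
    rw [hη']
    field_simp
    ring
  have hlt : ENNReal.ofReal (1 - η') < 1 := by
    rw [← ENNReal.ofReal_one]
    exact (ENNReal.ofReal_lt_ofReal_iff one_pos).2 (by linarith)
  have hev := hz3.eventually (lt_mem_nhds hlt)
  have hdist : 0 < |z.1 - z.2| / 2 := by
    have := abs_pos.2 (sub_ne_zero.2 hz2)
    linarith
  have hsmall : ∀ᶠ r : ℝ in 𝓝[>] 0, r < |z.1 - z.2| / 2 :=
    mem_nhdsWithin_of_mem_nhds (Iio_mem_nhds hdist)
  obtain ⟨r, ⟨hr1, hr2⟩, hr0'⟩ := ((hev.and hsmall).and self_mem_nhdsWithin).exists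
  have hr0 : 0 < r := hr0'
  set B : Set (ℝ × ℝ) := Metric.closedBall z r with hB
  have hBprod : B = Metric.closedBall z.1 r ×ˢ Metric.closedBall z.2 r := by
    rw [hB, ← closedBall_prod_same]
  have hBm : MeasurableSet B := Metric.isClosed_closedBall.measurableSet
  have hBfin : (volume : Measure (ℝ × ℝ)) B ≠ ⊤ := Metric.isBounded_closedBall.measure_lt_top.ne
  have hBpos : 0 < (volume : Measure (ℝ × ℝ)) B := Metric.measure_closedBall_pos _ _ hr0
  have hm : 0 < (volume : Measure (ℝ × ℝ)).real B := ENNReal.toReal_pos hBpos.ne' hBfin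
  have ha : (1 - η') * (volume : Measure (ℝ × ℝ)).real B <
      (volume : Measure (ℝ × ℝ)).real (E1 ∩ B) := by
    rw [ENNReal.lt_div_iff_mul_lt (Or.inl hBpos.ne') (Or.inl hBfin)] at hr1
    have h2 := (ENNReal.toReal_lt_toReal (ENNReal.mul_ne_top ENNReal.ofReal_ne_top hBfin)
      (ne_top_of_le_ne_top hBfin (measure_mono inter_subset_right))).2 hr1
    rw [ENNReal.toReal_mul, ENNReal.toReal_ofReal (by linarith)] at h2
    exact h2
  have hdiff : (volume : Measure (ℝ × ℝ)).real (B \ E1) =
      (volume : Measure (ℝ × ℝ)).real B - (volume : Measure (ℝ × ℝ)).real (E1 ∩ B) := by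
    have h1 := measureReal_inter_add_sdiff (μ := (volume : Measure (ℝ × ℝ))) (s := B) hE1m
      (h := hBfin)
    rw [inter_comm] at h1
    linarith
  set P : Set unitInterval := Subtype.val ⁻¹' Metric.closedBall z.1 r with hP
  set Q : Set unitInterval := Subtype.val ⁻¹' Metric.closedBall z.2 r with hQ
  have hPm : MeasurableSet P := measurable_subtype_coe Metric.isClosed_closedBall.measurableSet
  have hQm : MeasurableSet Q := measurable_subtype_coe Metric.isClosed_closedBall.measurableSet
  have hPQ : P ×ˢ Q = ii ⁻¹' B := by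
    rw [hBprod]
    rfl
  have hPQE : (P ×ˢ Q) \ E = ii ⁻¹' (B \ E1) := by
    rw [preimage_sdiff, ← hPQ, hpre]
  have hprod : ν.real (P ×ˢ Q) = (volume : Measure unitInterval).real P *
      (volume : Measure unitInterval).real Q := measureReal_prod_prod P Q
  have hbig : (1 - η') * (volume : Measure (ℝ × ℝ)).real B < ν.real (P ×ˢ Q) := by
    refine lt_of_lt_of_le ha ?_
    rw [hPQ, hν, real_pre]
    refine measureReal_mono ?_ (ne_top_of_le_ne_top hBfin (measure_mono inter_subset_left))
    exact fun x hx => ⟨hx.2, hE1sub hx.1⟩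
  have hposPQ : 0 < (volume : Measure unitInterval).real P *
      (volume : Measure unitInterval).real Q := by
    rw [← hprod]
    refine lt_trans (mul_pos (by linarith) hm) hbig
  have hP0 : 0 ≤ (volume : Measure unitInterval).real P := measureReal_nonneg
  have hQ0 : 0 ≤ (volume : Measure unitInterval).real Q := measureReal_nonneg
  refine ⟨P, Q, hPm, hQm, ?_, ?_, ?_, ?_⟩
  · rw [Set.disjoint_left]
    intro x hx hy
    have h1 : |(x : ℝ) - z.1| ≤ r := by simpa [hP, Real.dist_eq] using hx
    have h2 : |(x : ℝ) - z.2| ≤ r := by simpa [hQ, Real.dist_eq] using hy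
    have h3 : |z.1 - z.2| ≤ |(x : ℝ) - z.1| + |(x : ℝ) - z.2| := by
      have h4 := abs_sub_le z.1 (x : ℝ) z.2
      rw [abs_sub_comm z.1 (x : ℝ)] at h4
      exact h4
    linarith
  · exact pos_of_mul_pos_left hposPQ hQ0
  · exact pos_of_mul_pos_right hposPQ hP0
  · rw [hPQE, hν, real_pre, ← hprod]
    calc (volume : Measure (ℝ × ℝ)).real (B \ E1 ∩ I2)
        ≤ (volume : Measure (ℝ × ℝ)).real (B \ E1) :=
          measureReal_mono inter_subset_left
            (ne_top_of_le_ne_top hBfin (measure_mono sdiff_subset))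
      _ ≤ η' * (volume : Measure (ℝ × ℝ)).real B := by
          rw [hdiff]
          linarith
      _ = η * ((1 - η') * (volume : Measure (ℝ × ℝ)).real B) := by
          rw [← mul_assoc, ← hkey]
      _ ≤ η * ν.real (P ×ˢ Q) := mul_le_mul_of_nonneg_left hbig.le hη.le

end Pool.Agent.Helper8.GC
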