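import Pool.Agent.Helper8.GC.Closed

/-! Project GC, module GC-1: generic drawings. -/

namespace Pool.Agent.Helper8.GC

open MeasureTheory Set Filter Topology

private theorem measurable_det3 {α : Type*} [MeasurableSpace α] {u v w : α → ℝ × ℝ}
    (hu : Measurable u) (hv : Measurable v) (hw : Measurable w) :
    Measurable fun x => det3 (u x) (v x) (w x) := by
  unfold det3
  fun_prop

private theorem roots_null (A B C : ℝ) (hC : C ≠ 0) :
    (volume : Measure ℝ) {e | A + B * e + C * e ^ 2 = 0} = 0 := by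
  set P : Polynomial ℝ := Polynomial.C A + Polynomial.C B * Polynomial.X +
    Polynomial.C C * Polynomial.X ^ 2 with hP
  have hP0 : P ≠ 0 := by
    intro h
    have h2 : P.coeff 2 = 0 := by rw [h]; simp
    rw [hP] at h2
    simp at h2
    exact hC h2
  have hsub : {e : ℝ | A + B * e + C * e ^ 2 = 0} ⊆ (P.roots.toFinset : Set ℝ) := by
    intro e he
    have he' : A + B * e + C * e ^ 2 = 0 := he
    rw [Finset.mem_coe, Multiset.mem_toFinset, Polynomial.mem_roots hP0, Polynomial.IsRoot, hP]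
    simp
    linarith
  exact ((Finset.finite_toSet _).subset hsub).measure_zero _

/-- The perturbed drawing. -/
private def pert {Ω : Type*} (f c : Ω → ℝ × ℝ) (e : ℝ) : Ω → ℝ × ℝ := fun ω => f ω + e • c ω

private theorem pert_drawing {Ω : Type*} [MeasurableSpace Ω] {f c : Ω → ℝ × ℝ}
    (hf : IsDrawing f) (hc : IsDrawing c) (e : ℝ) : IsDrawing (pert f c e) := by
  constructor
  · exact hf.measurable.add (hc.measurable.const_smul e)
  · obtain ⟨M, hM⟩ := isBounded_iff_forall_norm_le.mp hf.bounded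
    obtain ⟨N, hN⟩ := isBounded_iff_forall_norm_le.mp hc.bounded
    refine isBounded_iff_forall_norm_le.mpr ⟨M + |e| * N, ?_⟩
    rintro _ ⟨ω, rfl⟩
    have h1 := hM _ (mem_range_self ω)
    have h2 := hN _ (mem_range_self ω)
    calc ‖f ω + e • c ω‖ ≤ ‖f ω‖ + ‖e • c ω‖ := norm_add_le _ _
      _ = ‖f ω‖ + |e| * ‖c ω‖ := by rw [norm_smul, Real.norm_eq_abs]
      _ ≤ M + |e| * N := by gcongr

private theorem ae_generic {Ω : Type*} [MeasurableSpace Ω] (μ : Measure Ω)
    [IsProbabilityMeasure μ] {f c : Ω → ℝ × ℝ} (hf : Measurable f) (hc : Measurable c)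
    (hgc : Generic μ c) : ∀ᵐ e : ℝ, Generic μ (pert f c e) := by
  unfold Generic
  have hmeas : MeasurableSet {x : (Ω × Ω × Ω) × ℝ |
      det3 (pert f c x.2 x.1.1) (pert f c x.2 x.1.2.1) (pert f c x.2 x.1.2.2) ≠ 0} := by
    have : Measurable fun x : (Ω × Ω × Ω) × ℝ =>
        det3 (pert f c x.2 x.1.1) (pert f c x.2 x.1.2.1) (pert f c x.2 x.1.2.2) := by
      apply measurable_det3 <;> (unfold pert; fun_prop)
    exact this (measurableSet_singleton (0 : ℝ)).compl
  rw [← Measure.ae_ae_comm (μ := μ.prod (μ.prod μ)) (ν := (volume : Measure ℝ))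
    (p := fun p e => det3 (pert f c e p.1) (pert f c e p.2.1) (pert f c e p.2.2) ≠ 0) hmeas]
  filter_upwards [hgc] with p hp
  rw [ae_iff]
  refine measure_mono_null ?_ (roots_null (det3 (f p.1) (f p.2.1) (f p.2.2))
    (((f p.2.1).1 - (f p.1).1) * ((c p.2.2).2 - (c p.1).2) +
      ((c p.2.1).1 - (c p.1).1) * ((f p.2.2).2 - (f p.1).2) -
      ((f p.2.1).2 - (f p.1).2) * ((c p.2.2).1 - (c p.1).1) -
      ((c p.2.1).2 - (c p.1).2) * ((f p.2.2).1 - (f p.1).1)) _ hp)
  intro e he
  have he' : ¬ (det3 (pert f c e p.1) (pert f c e p.2.1) (pert f c e p.2.2) ≠ 0) := he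
  rw [not_not] at he'
  have : det3 (f p.1) (f p.2.1) (f p.2.2) + (((f p.2.1).1 - (f p.1).1) * ((c p.2.2).2 - (c p.1).2) +
      ((c p.2.1).1 - (c p.1).1) * ((f p.2.2).2 - (f p.1).2) -
      ((f p.2.1).2 - (f p.1).2) * ((c p.2.2).1 - (c p.1).1) -
      ((c p.2.1).2 - (c p.1).2) * ((f p.2.2).1 - (f p.1).1)) * e +
      det3 (c p.1) (c p.2.1) (c p.2.2) * e ^ 2 = 0 := by
    rw [← he']
    unfold det3 pert
    simp only [Prod.fst_add, Prod.snd_add, Prod.smul_fst, Prod.smul_snd, smul_eq_mul]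
    ring
  exact this

private theorem weight_bounds {Ω : Type*} [MeasurableSpace Ω] {W : Ω → Ω → ℝ}
    (hW : IsGraphon W) (q : (Ω × Ω) × (Ω × Ω)) :
    0 ≤ W q.1.1 q.1.2 * W q.2.1 q.2.2 ∧ W q.1.1 q.1.2 * W q.2.1 q.2.2 ≤ 1 :=
  ⟨mul_nonneg (hW.nonneg _ _) (hW.nonneg _ _),
    mul_le_one₀ (hW.le_one _ _) (hW.nonneg _ _) (hW.le_one _ _)⟩

private noncomputable def integrand {Ω : Type*} (W : Ω → Ω → ℝ) (f : Ω → ℝ × ℝ)
    (q : (Ω × Ω) × (Ω × Ω)) : ℝ :=
  W q.1.1 q.1.2 * W q.2.1 q.2.2 * (crossing f).indicator (fun _ => (1 : ℝ)) q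

private theorem ind_bounds {α : Type*} (s : Set α) (q : α) :
    0 ≤ s.indicator (fun _ => (1 : ℝ)) q ∧ s.indicator (fun _ => (1 : ℝ)) q ≤ 1 := by
  by_cases h : q ∈ s <;> simp [h]

private theorem integrand_bounds {Ω : Type*} [MeasurableSpace Ω] {W : Ω → Ω → ℝ}
    (hW : IsGraphon W) (f : Ω → ℝ × ℝ) (q : (Ω × Ω) × (Ω × Ω)) :
    0 ≤ integrand W f q ∧ integrand W f q ≤ 1 := by
  obtain ⟨h1, h2⟩ := weight_bounds hW q
  obtain ⟨h3, h4⟩ := ind_bounds (crossing f) q
  exact ⟨mul_nonneg h1 h3, mul_le_one₀ h2 h3 h4⟩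

private theorem integrand_measurable {Ω : Type*} [MeasurableSpace Ω] {W : Ω → Ω → ℝ}
    (hW : IsGraphon W) {f : Ω → ℝ × ℝ} (hf : Measurable f) : Measurable (integrand W f) := by
  unfold integrand
  have h1 : Measurable fun q : (Ω × Ω) × (Ω × Ω) => W q.1.1 q.1.2 :=
    hW.measurable.comp measurable_fst
  have h2 : Measurable fun q : (Ω × Ω) × (Ω × Ω) => W q.2.1 q.2.2 :=
    hW.measurable.comp measurable_snd
  exact (h1.mul h2).mul (measurable_const.indicator (measurableSet_crossing hf))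

private theorem integrand_integrable {Ω : Type*} [MeasurableSpace Ω] (μ : Measure Ω)
    [IsProbabilityMeasure μ] {W : Ω → Ω → ℝ}
    (hW : IsGraphon W) {f : Ω → ℝ × ℝ} (hf : Measurable f) :
    Integrable (integrand W f) ((μ.prod μ).prod (μ.prod μ)) := by
  refine Integrable.of_bound (integrand_measurable hW hf).aestronglyMeasurable 1 ?_
  refine ae_of_all _ fun q => ?_
  obtain ⟨h1, h2⟩ := integrand_bounds hW f q
  rw [Real.norm_eq_abs, abs_of_nonneg h1]
  exact h2

theorem exists_generic {Ω : Type*} [MeasurableSpace Ω] (μ : Measure Ω) [IsProbabilityMeasure μ]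
    {c : Ω → ℝ × ℝ} (hc : IsDrawing c) (hgc : Generic μ c)
    {W : Ω → Ω → ℝ} (hW : IsGraphon W) {f : Ω → ℝ × ℝ} (hf : IsDrawing f)
    {δ : ℝ} (hδ : 0 < δ) :
    ∃ f' : Ω → ℝ × ℝ, IsDrawing f' ∧ Generic μ f' ∧ cdf μ W f' ≤ cdf μ W f + δ := by
  have hae := ae_generic μ hf.measurable hc.measurable hgc
  have hex : ∀ n : ℕ, ∃ e : ℝ, e ∈ Ioo (0 : ℝ) (1 / ((n : ℝ) + 1)) ∧ Generic μ (pert f c e) := by
    intro n
    apply Measure.exists_mem_of_measure_ne_zero_of_ae (μ := (volume : Measure ℝ))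
    · rw [Real.volume_Ioo]
      have : (0 : ℝ) < 1 / ((n : ℝ) + 1) := by positivity
      simp only [sub_zero, ne_eq, ENNReal.ofReal_eq_zero, not_le]
      exact this
    · exact ae_restrict_of_ae hae
  choose e he hge using hex
  have helim : Tendsto e atTop (𝓝 0) := by
    refine tendsto_of_tendsto_of_tendsto_of_le_of_le tendsto_const_nhds
      tendsto_one_div_add_atTop_nhds_zero_nat (fun n => (he n).1.le) (fun n => (he n).2.le)
  set M := (μ.prod μ).prod (μ.prod μ) with hM
  set F : ℕ → (Ω × Ω) × (Ω × Ω) → ℝ := fun n q =>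
    max (integrand W (pert f c (e n)) q - integrand W f q) 0 with hF
  have hmeasn : ∀ n, Measurable (pert f c (e n)) := fun n => (pert_drawing hf hc (e n)).measurable
  have hlim : Tendsto (fun n => ∫ q, F n q ∂M) atTop (𝓝 (∫ _q, (0 : ℝ) ∂M)) := by
    refine tendsto_integral_of_dominated_convergence (fun _ => (1 : ℝ)) ?_ ?_ ?_ ?_
    · intro n
      exact (((integrand_measurable hW (hmeasn n)).sub
        (integrand_measurable hW hf.measurable)).max measurable_const).aestronglyMeasurable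
    · exact integrable_const _
    · intro n
      refine ae_of_all _ fun q => ?_
      obtain ⟨h1, h2⟩ := integrand_bounds hW (pert f c (e n)) q
      obtain ⟨h3, h4⟩ := integrand_bounds hW f q
      rw [Real.norm_eq_abs, abs_of_nonneg (le_max_right _ _)]
      exact max_le (by linarith) (by norm_num)
    · refine ae_of_all _ fun q => ?_
      refine tendsto_const_nhds.congr' ?_
      by_cases hq : q ∈ crossing f
      · refine Eventually.of_forall fun n => ?_
        have h5 : integrand W (pert f c (e n)) q ≤ integrand W f q := by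
          unfold integrand
          rw [indicator_of_mem hq]
          exact mul_le_mul_of_nonneg_left (ind_bounds _ q).2 (weight_bounds hW q).1
        exact (max_eq_right (by linarith)).symm
      · have hcont : Tendsto (fun n => ((pert f c (e n) q.1.1, pert f c (e n) q.1.2),
            (pert f c (e n) q.2.1, pert f c (e n) q.2.2))) atTop
            (𝓝 ((f q.1.1, f q.1.2), (f q.2.1, f q.2.2))) := by
          have hp : ∀ ω, Tendsto (fun n => pert f c (e n) ω) atTop (𝓝 (f ω)) := by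
            intro ω
            have h6 : Tendsto (fun n => f ω + e n • c ω) atTop (𝓝 (f ω + (0 : ℝ) • c ω)) :=
              tendsto_const_nhds.add (helim.smul_const (c ω))
            rwa [zero_smul, add_zero] at h6
          exact ((hp _).prodMk_nhds (hp _)).prodMk_nhds ((hp _).prodMk_nhds (hp _))
        have hopen := isClosed_cross.isOpen_compl
        have hmem : ((f q.1.1, f q.1.2), (f q.2.1, f q.2.2)) ∈
            {q : ((ℝ × ℝ) × (ℝ × ℝ)) × ((ℝ × ℝ) × (ℝ × ℝ)) |
              Cross q.1.1 q.1.2 q.2.1 q.2.2}ᶜ := hq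
        filter_upwards [hcont.eventually (hopen.mem_nhds hmem)] with n hn
        have hn' : q ∉ crossing (pert f c (e n)) := hn
        have h7 : integrand W (pert f c (e n)) q = 0 := by
          unfold integrand
          rw [indicator_of_notMem hn', mul_zero]
        have h8 : integrand W f q = 0 := by
          unfold integrand
          rw [indicator_of_notMem hq, mul_zero]
        simp [hF, h7, h8]
  rw [integral_zero] at hlim
  have hev := hlim.eventually (gt_mem_nhds hδ)
  obtain ⟨n, hn⟩ := hev.exists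
  refine ⟨pert f c (e n), pert_drawing hf hc _, hge n, ?_⟩
  have hint1 := integrand_integrable μ hW (hmeasn n)
  have hint2 := integrand_integrable μ hW hf.measurable
  have hintF : Integrable (F n) M := (hint1.sub hint2).sup (integrable_const 0)
  have hle : ∫ q, integrand W (pert f c (e n)) q ∂M ≤
      ∫ q, integrand W f q ∂M + ∫ q, F n q ∂M := by
    rw [← integral_add hint2 hintF]
    refine integral_mono hint1 (hint2.add hintF) fun q => ?_
    have h9 := le_max_left (integrand W (pert f c (e n)) q - integrand W f q) 0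
    change integrand W (pert f c (e n)) q ≤ integrand W f q + F n q
    simp only [hF]
    linarith
  have h10 : (0 : ℝ) ≤ ∫ q, F n q ∂M := integral_nonneg fun q => le_max_right _ _
  change (1 / 8) * ∫ q, integrand W (pert f c (e n)) q ∂M ≤
    (1 / 8) * ∫ q, integrand W f q ∂M + δ
  linarith

theorem generic_interval :
    ∃ c : unitInterval → ℝ × ℝ, IsDrawing c ∧ Generic (volume : Measure unitInterval) c := by
  refine ⟨fun x => ((x : ℝ), (x : ℝ) ^ 2), ⟨by fun_prop, ?_⟩, ?_⟩
  · refine isBounded_iff_forall_norm_le.mpr ⟨1, ?_⟩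
    rintro _ ⟨x, rfl⟩
    have h0 := x.2.1
    have h1 := x.2.2
    rw [Prod.norm_def, Real.norm_eq_abs, Real.norm_eq_abs, abs_of_nonneg h0,
      abs_of_nonneg (by positivity)]
    exact max_le h1 (pow_le_one₀ h0 h1)
  · unfold Generic
    have hmeas : MeasurableSet {p : unitInterval × unitInterval × unitInterval |
        det3 ((p.1 : ℝ), (p.1 : ℝ) ^ 2) ((p.2.1 : ℝ), (p.2.1 : ℝ) ^ 2)
          ((p.2.2 : ℝ), (p.2.2 : ℝ) ^ 2) ≠ 0} := by
      have : Measurable fun p : unitInterval × unitInterval × unitInterval =>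
          det3 ((p.1 : ℝ), (p.1 : ℝ) ^ 2) ((p.2.1 : ℝ), (p.2.1 : ℝ) ^ 2)
          ((p.2.2 : ℝ), (p.2.2 : ℝ) ^ 2) := by
        apply measurable_det3 <;> fun_prop
      exact this (measurableSet_singleton (0 : ℝ)).compl
    rw [Measure.ae_prod_iff_ae_ae hmeas]
    refine ae_of_all _ fun x => ?_
    have hmeas2 : MeasurableSet {p : unitInterval × unitInterval |
        det3 ((x : ℝ), (x : ℝ) ^ 2) ((p.1 : ℝ), (p.1 : ℝ) ^ 2)
          ((p.2 : ℝ), (p.2 : ℝ) ^ 2) ≠ 0} := measurable_prodMk_left hmeas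
    rw [Measure.ae_prod_iff_ae_ae hmeas2]
    have hx : ∀ᵐ y : unitInterval, y ≠ x := by
      rw [ae_iff]
      simp
    filter_upwards [hx] with y hy
    have hy2 : ∀ᵐ z : unitInterval, z ≠ y := by
      rw [ae_iff]
      simp
    filter_upwards [hx, hy2] with z hz1 hz2
    have e1 : det3 ((x : ℝ), (x : ℝ) ^ 2) ((y : ℝ), (y : ℝ) ^ 2) ((z : ℝ), (z : ℝ) ^ 2) =
        ((y : ℝ) - x) * ((z : ℝ) - x) * ((z : ℝ) - y) := by
      unfold det3
      ring
    have g1 : (y : ℝ) - x ≠ 0 := sub_ne_zero.mpr fun h => hy (Subtype.ext h)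
    have g2 : (z : ℝ) - x ≠ 0 := sub_ne_zero.mpr fun h => hz1 (Subtype.ext h)
    have g3 : (z : ℝ) - y ≠ 0 := sub_ne_zero.mpr fun h => hz2 (Subtype.ext h)
    change det3 ((x : ℝ), (x : ℝ) ^ 2) ((y : ℝ), (y : ℝ) ^ 2) ((z : ℝ), (z : ℝ) ^ 2) ≠ 0
    rw [e1]
    exact mul_ne_zero (mul_ne_zero g1 g2) g3

end Pool.Agent.Helper8.GC
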