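import Pool.Agent.Helper8.GC.Defs

/-!
# Project GC, module GC-2 (part 1)

Lines are null for a generic map, and a function without atoms splits a set in prescribed
proportions.
-/

namespace Pool.Agent.Helper8.GC

open MeasureTheory Set Filter Topology

/-- Three points of a line are collinear. -/
theorem det3_eq_zero_of_line {α β γ : ℝ} (h : α ≠ 0 ∨ β ≠ 0) {a b c : ℝ × ℝ}
    (ha : α * a.1 + β * a.2 = γ) (hb : α * b.1 + β * b.2 = γ) (hc : α * c.1 + β * c.2 = γ) :
    det3 a b c = 0 := by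
  unfold det3
  have h1 : α * (b.1 - a.1) + β * (b.2 - a.2) = 0 := by linarith
  have h2 : α * (c.1 - a.1) + β * (c.2 - a.2) = 0 := by linarith
  rcases h with h | h
  · have : α * ((b.1 - a.1) * (c.2 - a.2) - (b.2 - a.2) * (c.1 - a.1)) = 0 := by
      linear_combination (c.2 - a.2) * h1 - (b.2 - a.2) * h2
    exact (mul_eq_zero.mp this).resolve_left h
  · have : β * ((b.1 - a.1) * (c.2 - a.2) - (b.2 - a.2) * (c.1 - a.1)) = 0 := by
      linear_combination (b.1 - a.1) * h2 - (c.1 - a.1) * h1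
    exact (mul_eq_zero.mp this).resolve_left h

theorem Generic.line_null {Ω : Type*} [MeasurableSpace Ω] {μ : Measure Ω}
    [IsProbabilityMeasure μ] {f : Ω → ℝ × ℝ} (hf : Measurable f) (hg : Generic μ f)
    {α β : ℝ} (γ : ℝ) (h : α ≠ 0 ∨ β ≠ 0) :
    μ {ω | α * (f ω).1 + β * (f ω).2 = γ} = 0 := by
  set X : Set Ω := {ω | α * (f ω).1 + β * (f ω).2 = γ} with hX
  have h0 : (μ.prod (μ.prod μ)) (X ×ˢ (X ×ˢ X)) = 0 := by
    refine measure_mono_null ?_ (ae_iff.mp hg)
    rintro ⟨a, b, c⟩ ⟨ha, hb, hc⟩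
    simp only [hX, mem_ofPred_eq] at ha hb hc
    simp only [mem_ofPred_eq, not_not]
    exact det3_eq_zero_of_line h ha hb hc
  rw [Measure.prod_prod, Measure.prod_prod] at h0
  simpa using h0

/-- Continuity of the measure of a family of half spaces. -/
theorem tendsto_real_inter {Ω T : Type*} [MeasurableSpace Ω] {μ : Measure Ω} [IsFiniteMeasure μ]
    {L : Filter T} [L.IsCountablyGenerated] {X : Set Ω} (hX : MeasurableSet X)
    {S : T → Set Ω} {S' : Set Ω} (hS : ∀ τ, MeasurableSet (S τ)) (hS' : MeasurableSet S')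
    (h : ∀ᵐ ω ∂μ, ω ∈ X → ∀ᶠ τ in L, (ω ∈ S τ ↔ ω ∈ S')) :
    Tendsto (fun τ => μ.real (X ∩ S τ)) L (𝓝 (μ.real (X ∩ S'))) := by
  refine (ENNReal.tendsto_toReal (measure_ne_top μ _)).comp ?_
  refine tendsto_measure_of_ae_tendsto_indicator_of_isFiniteMeasure L (hX.inter hS')
    (fun τ => hX.inter (hS τ)) ?_
  filter_upwards [h] with ω hω
  by_cases hx : ω ∈ X
  · filter_upwards [hω hx] with τ hτ
    simp only [mem_inter_iff, hτ]
  · exact Eventually.of_forall fun τ => by simp only [mem_inter_iff, hx, false_and]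

/-- A family of half spaces depending continuously on the parameter. -/
theorem continuous_real_lt {Ω T : Type*} [MeasurableSpace Ω] {μ : Measure Ω} [IsFiniteMeasure μ]
    [TopologicalSpace T] [FirstCountableTopology T] {X : Set Ω} (hX : MeasurableSet X)
    {g : T → Ω → ℝ} (hg : ∀ ω, Continuous fun τ => g τ ω) (hm : ∀ τ, Measurable (g τ))
    (h0 : ∀ τ, μ {ω | g τ ω = 0} = 0) :
    Continuous fun τ => μ.real (X ∩ {ω | g τ ω < 0}) := by
  rw [continuous_iff_continuousAt]
  intro τ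
  refine tendsto_real_inter hX (S := fun τ => {ω | g τ ω < 0}) (S' := {ω | g τ ω < 0})
    (fun τ => measurableSet_lt (hm τ) measurable_const)
    (measurableSet_lt (hm τ) measurable_const) ?_
  have : ∀ᵐ ω ∂μ, ω ∉ {ω | g τ ω = 0} := measure_eq_zero_iff_ae_notMem.mp (h0 τ)
  filter_upwards [this] with ω hω _
  have hne : g τ ω ≠ 0 := hω
  rcases lt_or_gt_of_ne hne with h | h
  · filter_upwards [(hg ω).continuousAt.eventually (gt_mem_nhds h)] with σ hσ
    exact ⟨fun _ => h, fun _ => hσ⟩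
  · filter_upwards [(hg ω).continuousAt.eventually (lt_mem_nhds h)] with σ hσ
    exact ⟨fun h' => absurd (lt_trans hσ h') (lt_irrefl _),
      fun h' => absurd (lt_trans h h') (lt_irrefl _)⟩

theorem exists_split {Ω : Type*} [MeasurableSpace Ω] {μ : Measure Ω} [IsProbabilityMeasure μ]
    {φ : Ω → ℝ} (hφ : Measurable φ) (hno : ∀ t, μ {ω | φ ω = t} = 0)
    {X : Set Ω} (hX : MeasurableSet X) {m : ℝ} (h0 : 0 < m) (h1 : m < μ.real X) :
    ∃ t, μ.real (X ∩ {ω | φ ω < t}) = m := by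
  have hc : Continuous fun t : ℝ => μ.real (X ∩ {ω | φ ω < t}) := by
    have := continuous_real_lt (μ := μ) hX (g := fun (t : ℝ) ω => φ ω - t)
      (fun ω => continuous_const.sub continuous_id) (fun t => hφ.sub_const t)
      (fun t => by simpa only [sub_eq_zero] using hno t)
    simpa only [sub_lt_zero] using this
  have hbot : Tendsto (fun t : ℝ => μ.real (X ∩ {ω | φ ω < t})) atBot (𝓝 0) := by
    have := tendsto_real_inter (μ := μ) (L := (atBot : Filter ℝ)) hX
      (S := fun t => {ω | φ ω < t}) (S' := ∅)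
      (fun t => measurableSet_lt hφ measurable_const) MeasurableSet.empty
      (Eventually.of_forall fun ω _ => by
        filter_upwards [eventually_le_atBot (φ ω)] with t ht
        simp only [mem_empty_iff_false, iff_false, not_lt]
        exact ht)
    simpa using this
  have htop : Tendsto (fun t : ℝ => μ.real (X ∩ {ω | φ ω < t})) atTop (𝓝 (μ.real X)) := by
    have := tendsto_real_inter (μ := μ) (L := (atTop : Filter ℝ)) hX
      (S := fun t => {ω | φ ω < t}) (S' := univ)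
      (fun t => measurableSet_lt hφ measurable_const) MeasurableSet.univ
      (Eventually.of_forall fun ω _ => by
        filter_upwards [eventually_gt_atTop (φ ω)] with t ht
        simp only [mem_univ, iff_true]
        exact ht)
    simpa using this
  obtain ⟨a, ha⟩ := (hbot.eventually (gt_mem_nhds h0)).exists
  obtain ⟨b, hb⟩ := (htop.eventually (lt_mem_nhds h1)).exists
  exact mem_range_of_exists_le_of_exists_ge hc ⟨a, ha.le⟩ ⟨b, hb.le⟩

theorem exists_three {Ω : Type*} [MeasurableSpace Ω] {μ : Measure Ω} [IsProbabilityMeasure μ]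
    {φ : Ω → ℝ} (hφ : Measurable φ) (hno : ∀ t, μ {ω | φ ω = t} = 0)
    {X : Set Ω} (hX : MeasurableSet X) (h0 : 0 < μ.real X) :
    ∃ t₁ t₂, t₁ < t₂ ∧ μ.real (X ∩ {ω | φ ω < t₁}) = μ.real X / 3 ∧
      μ.real (X ∩ {ω | t₁ < φ ω ∧ φ ω < t₂}) = μ.real X / 3 ∧
      μ.real (X ∩ {ω | t₂ < φ ω}) = μ.real X / 3 := by
  obtain ⟨t₁, ht₁⟩ := exists_split hφ hno hX (m := μ.real X / 3) (by positivity) (by linarith)
  obtain ⟨t₂, ht₂⟩ := exists_split hφ hno hX (m := 2 * μ.real X / 3) (by positivity)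
    (by linarith)
  have hlt : t₁ < t₂ := by
    by_contra hle
    push Not at hle
    have : μ.real (X ∩ {ω | φ ω < t₂}) ≤ μ.real (X ∩ {ω | φ ω < t₁}) :=
      measureReal_mono (inter_subset_inter_right _ fun ω (hω : φ ω < t₂) => lt_of_lt_of_le hω hle)
    rw [ht₁, ht₂] at this
    linarith
  have hnull : ∀ t, μ.real {ω | φ ω = t} = 0 := fun t => by
    rw [measureReal_def, hno t, ENNReal.toReal_zero]
  have hml : ∀ t, MeasurableSet {ω | φ ω < t} := fun t => measurableSet_lt hφ measurable_const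
  have hmg : ∀ t, MeasurableSet {ω | t < φ ω} := fun t => measurableSet_lt measurable_const hφ
  have hme : ∀ t, MeasurableSet {ω | φ ω = t} := fun t => measurableSet_eq_fun hφ measurable_const
  have hsp : ∀ {Y : Set Ω}, MeasurableSet Y → ∀ t,
      μ.real (Y ∩ {ω | φ ω < t}) + μ.real (Y ∩ {ω | t < φ ω}) = μ.real Y := by
    intro Y hY t
    have h1 : μ.real Y = μ.real (Y ∩ {ω | φ ω < t}) + μ.real (Y \ {ω | φ ω < t}) :=
      (measureReal_inter_add_sdiff (hml t)).symm
    have h2 : μ.real (Y \ {ω | φ ω < t}) = μ.real (Y ∩ {ω | t < φ ω}) := by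
      refine measureReal_congr ?_
      have : ∀ᵐ ω ∂μ, ω ∉ {ω | φ ω = t} := measure_eq_zero_iff_ae_notMem.mp (hno t)
      filter_upwards [this] with ω hω
      have hne : φ ω ≠ t := hω
      refine propext ?_
      change (ω ∈ Y ∧ ¬ (φ ω < t)) ↔ (ω ∈ Y ∧ t < φ ω)
      rw [not_lt]
      exact and_congr_right fun _ => ⟨fun h => lt_of_le_of_ne h (Ne.symm hne), fun h => h.le⟩
    rw [h1, h2]
  refine ⟨t₁, t₂, hlt, ht₁, ?_, ?_⟩
  · have h1 := hsp (hX.inter (hml t₂)) t₁
    have e1 : X ∩ {ω | φ ω < t₂} ∩ {ω | φ ω < t₁} = X ∩ {ω | φ ω < t₁} := by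
      ext ω
      simp only [mem_inter_iff, mem_ofPred_eq]
      exact ⟨fun h => ⟨h.1.1, h.2⟩, fun h => ⟨⟨h.1, h.2.trans hlt⟩, h.2⟩⟩
    have e2 : X ∩ {ω | φ ω < t₂} ∩ {ω | t₁ < φ ω} = X ∩ {ω | t₁ < φ ω ∧ φ ω < t₂} := by
      ext ω
      simp only [mem_inter_iff, mem_ofPred_eq]
      exact ⟨fun h => ⟨h.1.1, h.2, h.1.2⟩, fun h => ⟨⟨h.1, h.2.2⟩, h.2.1⟩⟩
    rw [e1, e2, ht₁, ht₂] at h1
    linarith
  · have h2 := hsp hX t₂
    rw [ht₂] at h2
    linarith

end Pool.Agent.Helper8.GC
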