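import Pool.Agent.Helper8.GC.Geom
import Pool.Agent.Helper8.GC.Split
import Pool.Agent.Helper8.GC.Bisect

/-! The crossing lemma for generic drawings (project GC). -/

namespace Pool.Agent.Helper8.GC

open MeasureTheory Set

variable {Ω : Type*} [MeasurableSpace Ω] {μ : Measure Ω}

/-- Separation by a vertical line. -/
def Sep (f : Ω → ℝ × ℝ) (X Y : Set Ω) : Prop :=
  ∃ c : ℝ, (∀ ω ∈ X, (f ω).1 < c) ∧ ∀ ω ∈ Y, c < (f ω).1

theorem Sep.mono {f : Ω → ℝ × ℝ} {X Y X' Y' : Set Ω} (h : Sep f X Y) (hX : X' ⊆ X)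
    (hY : Y' ⊆ Y) : Sep f X' Y' := by
  obtain ⟨c, h1, h2⟩ := h
  exact ⟨c, fun ω hω => h1 ω (hX hω), fun ω hω => h2 ω (hY hω)⟩

/-- All triples have the same orientation. -/
def Oriented (f : Ω → ℝ × ℝ) (X Y Z : Set Ω) : Prop :=
  (∀ x ∈ X, ∀ y ∈ Y, ∀ z ∈ Z, 0 < det3 (f x) (f y) (f z)) ∨
    (∀ x ∈ X, ∀ y ∈ Y, ∀ z ∈ Z, det3 (f x) (f y) (f z) < 0)

theorem Oriented.mono {f : Ω → ℝ × ℝ} {X Y Z X' Y' Z' : Set Ω} (h : Oriented f X Y Z)
    (hX : X' ⊆ X) (hY : Y' ⊆ Y) (hZ : Z' ⊆ Z) : Oriented f X' Y' Z' := by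
  rcases h with h | h
  · exact Or.inl fun x hx y hy z hz => h x (hX hx) y (hY hy) z (hZ hz)
  · exact Or.inr fun x hx y hy z hz => h x (hX hx) y (hY hy) z (hZ hz)

theorem Oriented.mul_pos {f : Ω → ℝ × ℝ} {X Y Z : Set Ω} (h : Oriented f X Y Z)
    {x y z x' y' z' : Ω} (hx : x ∈ X) (hy : y ∈ Y) (hz : z ∈ Z) (hx' : x' ∈ X) (hy' : y' ∈ Y)
    (hz' : z' ∈ Z) : 0 < det3 (f x) (f y) (f z) * det3 (f x') (f y') (f z') := by
  rcases h with h | h
  · exact _root_.mul_pos (h x hx y hy z hz) (h x' hx' y' hy' z' hz')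
  · exact mul_pos_of_neg_of_neg (h x hx y hy z hz) (h x' hx' y' hy' z' hz')

theorem nonempty_of_real_pos {X : Set Ω} (h : 0 < μ.real X) : X.Nonempty := by
  rw [nonempty_iff_ne_empty]
  rintro rfl
  simp at h

/-- One step: make one triple oriented. -/
theorem orient_step [IsProbabilityMeasure μ] {f : Ω → ℝ × ℝ} (hf : Measurable f)
    (hline : ∀ α β γ : ℝ, α ≠ 0 ∨ β ≠ 0 → μ {ω | α * (f ω).1 + β * (f ω).2 = γ} = 0)
    {X Y Z : Set Ω} (hX : MeasurableSet X) (hY : MeasurableSet Y) (hZ : MeasurableSet Z)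
    (hXY : Sep f X Y) (hYZ : Sep f Y Z) (hX0 : 0 < μ.real X) (hY0 : 0 < μ.real Y)
    (hZ0 : 0 < μ.real Z) :
    ∃ X' Y' Z' : Set Ω, MeasurableSet X' ∧ MeasurableSet Y' ∧ MeasurableSet Z' ∧
      X' ⊆ X ∧ Y' ⊆ Y ∧ Z' ⊆ Z ∧ μ.real X / 3 ≤ μ.real X' ∧ μ.real Y / 3 ≤ μ.real Y' ∧
      μ.real Z / 3 ≤ μ.real Z' ∧ Oriented f X' Y' Z' := by
  obtain ⟨c₁, hX1, hY1⟩ := hXY
  obtain ⟨c₂, hY2, hZ2⟩ := hYZ
  obtain ⟨y₀, hy₀⟩ := nonempty_of_real_pos hY0
  have hcc : c₁ < c₂ := (hY1 y₀ hy₀).trans (hY2 y₀ hy₀)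
  obtain ⟨s, t, h1, h2, h3, h4⟩ := exists_bisector hf hline hX hZ c₁ hX1
    (fun ω hω => hcc.trans (hZ2 ω hω)) hX0 hZ0
  have mlow : MeasurableSet {ω | (f ω).2 < s * (f ω).1 + t} :=
    measurableSet_lt hf.snd ((hf.fst.const_mul s).add_const t)
  have mhigh : MeasurableSet {ω | s * (f ω).1 + t < (f ω).2} :=
    measurableSet_lt ((hf.fst.const_mul s).add_const t) hf.snd
  have hnull : μ.real {ω | (f ω).2 = s * (f ω).1 + t} = 0 := by
    have h := hline (-s) 1 t (Or.inr one_ne_zero)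
    have e : {ω | (f ω).2 = s * (f ω).1 + t} = {ω | -s * (f ω).1 + 1 * (f ω).2 = t} := by
      ext ω
      simp only [mem_setOf_eq]
      constructor <;> intro h <;> linarith
    rw [e, Measure.real, h]; simp
  have hcov : Y ⊆ (Y ∩ {ω | (f ω).2 < s * (f ω).1 + t}) ∪
      (Y ∩ {ω | s * (f ω).1 + t < (f ω).2}) ∪ {ω | (f ω).2 = s * (f ω).1 + t} := by
    intro ω hω
    rcases lt_trichotomy (f ω).2 (s * (f ω).1 + t) with h | h | h
    · exact Or.inl (Or.inl ⟨hω, h⟩)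
    · exact Or.inr h
    · exact Or.inl (Or.inr ⟨hω, h⟩)
  have hsum : μ.real Y ≤ μ.real (Y ∩ {ω | (f ω).2 < s * (f ω).1 + t}) +
      μ.real (Y ∩ {ω | s * (f ω).1 + t < (f ω).2}) := by
    calc μ.real Y ≤ μ.real ((Y ∩ {ω | (f ω).2 < s * (f ω).1 + t}) ∪
      (Y ∩ {ω | s * (f ω).1 + t < (f ω).2}) ∪ {ω | (f ω).2 = s * (f ω).1 + t}) :=
          measureReal_mono hcov
      _ ≤ _ := (measureReal_union_le _ _).trans (by
          rw [hnull, add_zero]; exact measureReal_union_le _ _)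
  by_cases hc : μ.real Y / 3 ≤ μ.real (Y ∩ {ω | (f ω).2 < s * (f ω).1 + t})
  · refine ⟨_, _, _, hX.inter mhigh, hY.inter mlow, hZ.inter mhigh, inter_subset_left,
      inter_subset_left, inter_subset_left, h2, hc, h4, Or.inl ?_⟩
    intro x hx y hy z hz
    exact det3_pos_of_below ((hX1 x hx.1).trans (hY1 y hy.1))
      ((hY2 y hy.1).trans (hZ2 z hz.1)) hx.2 hy.2 hz.2
  · have hc' : μ.real Y / 3 ≤ μ.real (Y ∩ {ω | s * (f ω).1 + t < (f ω).2}) := by
      have := not_le.1 hc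
      linarith
    refine ⟨_, _, _, hX.inter mlow, hY.inter mhigh, hZ.inter mlow, inter_subset_left,
      inter_subset_left, inter_subset_left, h1, hc', h3, Or.inr ?_⟩
    intro x hx y hy z hz
    exact det3_neg_of_above ((hX1 x hx.1).trans (hY1 y hy.1))
      ((hY2 y hy.1).trans (hZ2 z hz.1)) hx.2 hy.2 hz.2

/-- Make all triples of a list oriented. -/
theorem orient_list [IsProbabilityMeasure μ] {f : Ω → ℝ × ℝ} (hf : Measurable f)
    (hline : ∀ α β γ : ℝ, α ≠ 0 ∨ β ≠ 0 → μ {ω | α * (f ω).1 + β * (f ω).2 = γ} = 0)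
    {n : ℕ} {X : Fin n → Set Ω} (hX : ∀ i, MeasurableSet (X i))
    (hsep : ∀ i j, i < j → Sep f (X i) (X j)) (hpos : ∀ i, 0 < μ.real (X i))
    (L : List (Fin n × Fin n × Fin n)) (hL : ∀ T ∈ L, T.1 < T.2.1 ∧ T.2.1 < T.2.2) :
    ∃ X' : Fin n → Set Ω, (∀ i, MeasurableSet (X' i)) ∧ (∀ i, X' i ⊆ X i) ∧
      (∀ i, μ.real (X i) * (1 / 3) ^ L.length ≤ μ.real (X' i)) ∧
      ∀ T ∈ L, Oriented f (X' T.1) (X' T.2.1) (X' T.2.2) := by
  induction L with
  | nil => exact ⟨X, hX, fun i => subset_rfl, by simp, by simp⟩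
  | cons T L ih =>
    obtain ⟨X', h1, h2, h3, h4⟩ := ih (fun T hT => hL T (List.mem_cons_of_mem _ hT))
    obtain ⟨l1, l2⟩ := hL T (List.mem_cons_self)
    have hpos' : ∀ i, 0 < μ.real (X' i) := fun i =>
      lt_of_lt_of_le (mul_pos (hpos i) (by positivity)) (h3 i)
    obtain ⟨A, B, C, mA, mB, mC, sA, sB, sC, rA, rB, rC, hO⟩ :=
      orient_step hf hline (h1 T.1) (h1 T.2.1) (h1 T.2.2)
        ((hsep _ _ l1).mono (h2 _) (h2 _)) ((hsep _ _ l2).mono (h2 _) (h2 _))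
        (hpos' _) (hpos' _) (hpos' _)
    classical
    let Y : Fin n → Set Ω := fun i =>
      if i = T.1 then A else if i = T.2.1 then B else if i = T.2.2 then C else X' i
    have hYs : ∀ i, Y i ⊆ X' i := by
      intro i
      simp only [Y]
      split_ifs with e1 e2 e3
      · rw [e1]; exact sA
      · rw [e2]; exact sB
      · rw [e3]; exact sC
      · exact subset_rfl
    have hYm : ∀ i, MeasurableSet (Y i) := by
      intro i
      simp only [Y]
      split_ifs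
      · exact mA
      · exact mB
      · exact mC
      · exact h1 i
    have hYr : ∀ i, μ.real (X' i) / 3 ≤ μ.real (Y i) := by
      intro i
      simp only [Y]
      split_ifs with e1 e2 e3
      · rw [e1]; exact rA
      · rw [e2]; exact rB
      · rw [e3]; exact rC
      · have := hpos' i; linarith
    refine ⟨Y, hYm, fun i => (hYs i).trans (h2 i), ?_, ?_⟩
    · intro i
      have := h3 i
      have e : μ.real (X i) * (1 / 3) ^ (T :: L).length =
          (μ.real (X i) * (1 / 3) ^ L.length) / 3 := by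
        rw [List.length_cons, pow_succ]; ring
      rw [e]
      exact (div_le_div_of_nonneg_right this (by norm_num)).trans (hYr i)
    · intro T' hT'
      rcases List.mem_cons.1 hT' with rfl | hT'
      · have e1 : Y T'.1 = A := by simp [Y]
        have e2 : Y T'.2.1 = B := by simp [Y, l1.ne']
        have e3 : Y T'.2.2 = C := by simp [Y, l2.ne', (l1.trans l2).ne']
        rw [e1, e2, e3]; exact hO
      · exact (h4 T' hT').mono (hYs _) (hYs _) (hYs _)

/-- Three slabs. -/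
theorem exists_slabs [IsProbabilityMeasure μ] {f : Ω → ℝ × ℝ} (hf : Measurable f)
    (hline : ∀ α β γ : ℝ, α ≠ 0 ∨ β ≠ 0 → μ {ω | α * (f ω).1 + β * (f ω).2 = γ} = 0)
    {X : Set Ω} (hX : MeasurableSet X) (h0 : 0 < μ.real X) :
    ∃ A : Fin 3 → Set Ω, (∀ i, MeasurableSet (A i)) ∧ (∀ i, A i ⊆ X) ∧
      (∀ i, μ.real (A i) = μ.real X / 3) ∧ ∀ i j, i < j → Sep f (A i) (A j) := by
  have hno : ∀ t, μ {ω | (f ω).1 = t} = 0 := by
    intro t
    have h := hline 1 0 t (Or.inl one_ne_zero)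
    simpa using h
  obtain ⟨t₁, t₂, ht, h1, h2, h3⟩ := exists_three hf.fst hno hX h0
  have m1 : MeasurableSet {ω | (f ω).1 < t₁} := measurableSet_lt hf.fst measurable_const
  have m2 : MeasurableSet {ω | t₁ < (f ω).1 ∧ (f ω).1 < t₂} :=
    (measurableSet_lt measurable_const hf.fst).inter (measurableSet_lt hf.fst measurable_const)
  have m3 : MeasurableSet {ω | t₂ < (f ω).1} := measurableSet_lt measurable_const hf.fst
  refine ⟨![X ∩ {ω | (f ω).1 < t₁}, X ∩ {ω | t₁ < (f ω).1 ∧ (f ω).1 < t₂},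
    X ∩ {ω | t₂ < (f ω).1}], ?_, ?_, ?_, ?_⟩
  · intro i
    fin_cases i
    · exact hX.inter m1
    · exact hX.inter m2
    · exact hX.inter m3
  · intro i
    fin_cases i
    · exact inter_subset_left
    · exact inter_subset_left
    · exact inter_subset_left
  · intro i
    fin_cases i
    · exact h1
    · exact h2
    · exact h3
  · have s01 : Sep f (X ∩ {ω | (f ω).1 < t₁}) (X ∩ {ω | t₁ < (f ω).1 ∧ (f ω).1 < t₂}) :=
      ⟨t₁, fun ω hω => hω.2, fun ω hω => hω.2.1⟩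
    have s02 : Sep f (X ∩ {ω | (f ω).1 < t₁}) (X ∩ {ω | t₂ < (f ω).1}) :=
      ⟨t₁, fun ω hω => hω.2, fun ω hω => ht.trans hω.2⟩
    have s12 : Sep f (X ∩ {ω | t₁ < (f ω).1 ∧ (f ω).1 < t₂}) (X ∩ {ω | t₂ < (f ω).1}) :=
      ⟨t₂, fun ω hω => hω.2.2, fun ω hω => hω.2⟩
    intro i j hij
    fin_cases i <;> fin_cases j <;>
      first
        | exact absurd hij (by decide)
        | exact s01
        | exact s02
        | exact s12

/-- All increasing triples of `Fin (3 + 3)`. -/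
noncomputable def triples : List (Fin (3 + 3) × Fin (3 + 3) × Fin (3 + 3)) :=
  (((Finset.univ : Finset (Fin (3 + 3))) ×ˢ ((Finset.univ : Finset (Fin (3 + 3))) ×ˢ
    (Finset.univ : Finset (Fin (3 + 3))))).filter
      (fun T => T.1 < T.2.1 ∧ T.2.1 < T.2.2)).toList

theorem mem_triples {T : Fin (3 + 3) × Fin (3 + 3) × Fin (3 + 3)} :
    T ∈ triples ↔ T.1 < T.2.1 ∧ T.2.1 < T.2.2 := by
  simp [triples]

theorem length_triples : triples.length = 20 := by
  rw [triples, Finset.length_toList]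
  decide

theorem castAdd_lt_iff {i j : Fin 3} : Fin.castAdd 3 i < Fin.castAdd 3 j ↔ i < j := by
  rw [Fin.lt_def, Fin.lt_def, Fin.val_castAdd, Fin.val_castAdd]

theorem natAdd_lt_iff {i j : Fin 3} : Fin.natAdd 3 i < Fin.natAdd 3 j ↔ i < j := by
  rw [Fin.lt_def, Fin.lt_def, Fin.val_natAdd, Fin.val_natAdd]
  omega

theorem castAdd_lt_natAdd (i j : Fin 3) : Fin.castAdd 3 i < Fin.natAdd 3 j := by
  rw [Fin.lt_def, Fin.val_castAdd, Fin.val_natAdd]
  have := i.2
  omega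

theorem pos_of_mul_pos_mul_pos {a b c d : ℝ} (h1 : 0 < a * b) (h2 : 0 < c * d)
    (h3 : 0 < b * d) : 0 < a * c := by
  have h4 := mul_pos h1 h2
  have e : a * b * (c * d) = (a * c) * (b * d) := by ring
  rw [e] at h4
  exact (pos_iff_pos_of_mul_pos h4).2 h3

theorem neg_of_mul_pos_mul_neg {a b c d : ℝ} (h1 : 0 < a * b) (h2 : 0 < c * d)
    (h3 : b * d < 0) : a * c < 0 := by
  have h4 := mul_pos h1 h2
  have e : a * b * (c * d) = (a * c) * (b * d) := by ring
  rw [e] at h4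
  exact (neg_iff_neg_of_mul_pos h4).2 h3

/-- The crossing lemma for two sets separated by a vertical line. -/
theorem six [IsProbabilityMeasure μ] {f : Ω → ℝ × ℝ} (hf : Measurable f)
    (hline : ∀ α β γ : ℝ, α ≠ 0 ∨ β ≠ 0 → μ {ω | α * (f ω).1 + β * (f ω).2 = γ} = 0)
    {A B : Set Ω} (hA : MeasurableSet A) (hB : MeasurableSet B) (hAB : Sep f A B)
    (hA0 : 0 < μ.real A) (hB0 : 0 < μ.real B) :
    ∃ U U' V V' : Set Ω, MeasurableSet U ∧ MeasurableSet U' ∧ MeasurableSet V ∧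
      MeasurableSet V' ∧ U ⊆ A ∧ U' ⊆ A ∧ V ⊆ B ∧ V' ⊆ B ∧
      (1 / 3) ^ 21 * μ.real A ≤ μ.real U ∧ (1 / 3) ^ 21 * μ.real A ≤ μ.real U' ∧
      (1 / 3) ^ 21 * μ.real B ≤ μ.real V ∧ (1 / 3) ^ 21 * μ.real B ≤ μ.real V' ∧
      ∀ u ∈ U, ∀ v ∈ V, ∀ u' ∈ U', ∀ v' ∈ V', Cross (f u) (f v) (f u') (f v') := by
  obtain ⟨a, ma, sa, ra, pa⟩ := exists_slabs hf hline hA hA0
  obtain ⟨b, mb, sb, rb, pb⟩ := exists_slabs hf hline hB hB0
  have hm : ∀ i, MeasurableSet (Fin.append a b i) := by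
    intro i
    induction i using Fin.addCases with
    | left i => rw [Fin.append_left]; exact ma i
    | right i => rw [Fin.append_right]; exact mb i
  have hs : ∀ i j, i < j → Sep f (Fin.append a b i) (Fin.append a b j) := by
    intro i j hij
    induction i using Fin.addCases with
    | left i =>
      induction j using Fin.addCases with
      | left j =>
        rw [Fin.append_left, Fin.append_left]
        exact pa i j (castAdd_lt_iff.1 hij)
      | right j =>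
        rw [Fin.append_left, Fin.append_right]
        exact hAB.mono (sa i) (sb j)
    | right i =>
      induction j using Fin.addCases with
      | left j =>
        exact absurd hij (castAdd_lt_natAdd j i).asymm
      | right j =>
        rw [Fin.append_right, Fin.append_right]
        exact pb i j (natAdd_lt_iff.1 hij)
  have hp : ∀ i, 0 < μ.real (Fin.append a b i) := by
    intro i
    induction i using Fin.addCases with
    | left i => rw [Fin.append_left, ra i]; positivity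
    | right i => rw [Fin.append_right, rb i]; positivity
  obtain ⟨X, mX, sX, rX, oX⟩ := orient_list hf hline hm hs hp triples
    (fun T hT => mem_triples.1 hT)
  have hX0 : ∀ i, 0 < μ.real (X i) := fun i =>
    lt_of_lt_of_le (mul_pos (hp i) (by positivity)) (rX i)
  have hXn : ∀ i, (X i).Nonempty := fun i => nonempty_of_real_pos (hX0 i)
  choose p hpX using hXn
  have XA : ∀ i, X (Fin.castAdd 3 i) ⊆ A := fun i =>
    (sX _).trans (by rw [Fin.append_left]; exact sa i)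
  have XB : ∀ i, X (Fin.natAdd 3 i) ⊆ B := fun i =>
    (sX _).trans (by rw [Fin.append_right]; exact sb i)
  have RA : ∀ i, (1 / 3) ^ 21 * μ.real A ≤ μ.real (X (Fin.castAdd 3 i)) := by
    intro i
    refine le_trans (le_of_eq ?_) (rX _)
    rw [Fin.append_left, ra i, length_triples]; ring
  have RB : ∀ i, (1 / 3) ^ 21 * μ.real B ≤ μ.real (X (Fin.natAdd 3 i)) := by
    intro i
    refine le_trans (le_of_eq ?_) (rX _)
    rw [Fin.append_right, rb i, length_triples]; ring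
  -- orientations
  have O1 : ∀ i j k : Fin 3, i < j →
      Oriented f (X (Fin.castAdd 3 i)) (X (Fin.castAdd 3 j)) (X (Fin.natAdd 3 k)) := by
    intro i j k hij
    refine oX (Fin.castAdd 3 i, Fin.castAdd 3 j, Fin.natAdd 3 k) (mem_triples.2 ⟨?_, ?_⟩)
    · exact castAdd_lt_iff.2 hij
    · exact castAdd_lt_natAdd j k
  have O2 : ∀ i k l : Fin 3, k < l →
      Oriented f (X (Fin.castAdd 3 i)) (X (Fin.natAdd 3 k)) (X (Fin.natAdd 3 l)) := by
    intro i k l hkl
    refine oX (Fin.castAdd 3 i, Fin.natAdd 3 k, Fin.natAdd 3 l) (mem_triples.2 ⟨?_, ?_⟩)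
    · exact castAdd_lt_natAdd i k
    · exact natAdd_lt_iff.2 hkl
  have cyc : ∀ x y z : ℝ × ℝ, det3 y z x = det3 x y z := by
    intro x y z; unfold det3; ring
  obtain ⟨c, hc1, hc2⟩ := hAB
  obtain ⟨i, j, k, l, hij, hkl, q1, q2⟩ := parity
    (a := fun i => f (p (Fin.castAdd 3 i))) (b := fun i => f (p (Fin.natAdd 3 i))) (t := c)
    (fun i => hc1 _ (XA i (hpX _))) (fun i => hc2 _ (XB i (hpX _)))
    (fun i j k hij => by
      have := (O1 i j k hij).mul_pos (hpX _) (hpX _) (hpX _) (hpX _) (hpX _) (hpX _)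
      intro h0
      rw [h0] at this
      simp at this)
    (fun k l i hkl => by
      have := (O2 i k l hkl).mul_pos (hpX _) (hpX _) (hpX _) (hpX _) (hpX _) (hpX _)
      intro h0
      rw [cyc] at h0
      rw [h0] at this
      simp at this)
  rw [cyc (f (p (Fin.castAdd 3 i))) (f (p (Fin.natAdd 3 k))) (f (p (Fin.natAdd 3 l))),
    cyc (f (p (Fin.castAdd 3 j))) (f (p (Fin.natAdd 3 k))) (f (p (Fin.natAdd 3 l)))] at q2
  -- transfer to all points
  have t1 : ∀ u ∈ X (Fin.castAdd 3 i), ∀ u' ∈ X (Fin.castAdd 3 j),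
      ∀ v ∈ X (Fin.natAdd 3 k), ∀ v' ∈ X (Fin.natAdd 3 l),
      0 < det3 (f u) (f u') (f v) * det3 (f u) (f u') (f v') := by
    intro u hu u' hu' v hv v' hv'
    exact pos_of_mul_pos_mul_pos
      ((O1 i j k hij).mul_pos hu hu' hv (hpX _) (hpX _) (hpX _))
      ((O1 i j l hij).mul_pos hu hu' hv' (hpX _) (hpX _) (hpX _)) q1
  have t2 : ∀ u ∈ X (Fin.castAdd 3 i), ∀ u' ∈ X (Fin.castAdd 3 j),
      ∀ v ∈ X (Fin.natAdd 3 k), ∀ v' ∈ X (Fin.natAdd 3 l),
      0 < det3 (f v) (f v') (f u) * det3 (f v) (f v') (f u') := by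
    intro u hu u' hu' v hv v' hv'
    rw [cyc (f u) (f v) (f v'), cyc (f u') (f v) (f v')]
    exact pos_of_mul_pos_mul_pos
      ((O2 i k l hkl).mul_pos hu hv hv' (hpX _) (hpX _) (hpX _))
      ((O2 j k l hkl).mul_pos hu' hv hv' (hpX _) (hpX _) (hpX _)) q2
  have hne1 : det3 (f (p (Fin.castAdd 3 i))) (f (p (Fin.castAdd 3 j)))
      (f (p (Fin.natAdd 3 k))) ≠ 0 := left_ne_zero_of_mul q1.ne'
  have hne2 : det3 (f (p (Fin.castAdd 3 i))) (f (p (Fin.natAdd 3 k)))
      (f (p (Fin.natAdd 3 l))) ≠ 0 := left_ne_zero_of_mul q2.ne'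
  rcases lt_or_gt_of_ne (mul_ne_zero hne1 hne2) with hneg | hpos
  · refine ⟨X (Fin.castAdd 3 i), X (Fin.castAdd 3 j), X (Fin.natAdd 3 l), X (Fin.natAdd 3 k),
      mX _, mX _, mX _, mX _, XA _, XA _, XB _, XB _, RA _, RA _, RB _, RB _, ?_⟩
    intro u hu v' hv' u' hu' v hv
    refine (cross_of_det (t1 u hu u' hu' v hv v' hv') (t2 u hu u' hu' v hv v' hv')).2 ?_
    rw [cyc (f u) (f v) (f v')]
    exact neg_of_mul_pos_mul_neg
      ((O1 i j k hij).mul_pos hu hu' hv (hpX _) (hpX _) (hpX _))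
      ((O2 i k l hkl).mul_pos hu hv hv' (hpX _) (hpX _) (hpX _)) hneg
  · refine ⟨X (Fin.castAdd 3 i), X (Fin.castAdd 3 j), X (Fin.natAdd 3 k), X (Fin.natAdd 3 l),
      mX _, mX _, mX _, mX _, XA _, XA _, XB _, XB _, RA _, RA _, RB _, RB _, ?_⟩
    intro u hu v hv u' hu' v' hv'
    refine (cross_of_det (t1 u hu u' hu' v hv v' hv') (t2 u hu u' hu' v hv v' hv')).1 ?_
    rw [cyc (f u) (f v) (f v')]
    exact pos_of_mul_pos_mul_pos
      ((O1 i j k hij).mul_pos hu hu' hv (hpX _) (hpX _) (hpX _))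
      ((O2 i k l hkl).mul_pos hu hv hv' (hpX _) (hpX _) (hpX _)) hpos

/-- The relative measure of the sets found by the crossing lemma. -/
noncomputable def c0 : ℝ := (1 / 3) ^ 22

theorem c0_pos : 0 < c0 := by unfold c0; positivity

theorem exists_crossing_sets [IsProbabilityMeasure μ] {f : Ω → ℝ × ℝ} (hf : Measurable f)
    (hg : Generic μ f)
    {P Q : Set Ω} (hP : MeasurableSet P) (hQ : MeasurableSet Q)
    (hP0 : 0 < μ.real P) (hQ0 : 0 < μ.real Q) :
    ∃ U U' V V' : Set Ω, MeasurableSet U ∧ MeasurableSet U' ∧ MeasurableSet V ∧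
      MeasurableSet V' ∧ U ⊆ P ∧ U' ⊆ P ∧ V ⊆ Q ∧ V' ⊆ Q ∧
      c0 * μ.real P ≤ μ.real U ∧ c0 * μ.real P ≤ μ.real U' ∧
      c0 * μ.real Q ≤ μ.real V ∧ c0 * μ.real Q ≤ μ.real V' ∧
      ∀ u ∈ U, ∀ v ∈ V, ∀ u' ∈ U', ∀ v' ∈ V', Cross (f u) (f v) (f u') (f v') := by
  have hline : ∀ α β γ : ℝ, α ≠ 0 ∨ β ≠ 0 →
      μ {ω | α * (f ω).1 + β * (f ω).2 = γ} = 0 := fun α β γ h => hg.line_null hf γ h
  have hno : ∀ t, μ {ω | (f ω).1 = t} = 0 := by
    intro t
    have h := hline 1 0 t (Or.inl one_ne_zero)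
    simpa using h
  obtain ⟨c, hc⟩ := exists_split hf.fst hno hP (m := μ.real P / 2) (by positivity)
    (by linarith)
  have ml : MeasurableSet {ω | (f ω).1 < c} := measurableSet_lt hf.fst measurable_const
  have mr : MeasurableSet {ω | c < (f ω).1} := measurableSet_lt measurable_const hf.fst
  have hnull : μ.real {ω | (f ω).1 = c} = 0 := by rw [Measure.real, hno]; simp
  have half : ∀ Y : Set Ω, μ.real Y ≤ μ.real (Y ∩ {ω | (f ω).1 < c}) +
      μ.real (Y ∩ {ω | c < (f ω).1}) := by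
    intro Y
    have hcov : Y ⊆ (Y ∩ {ω | (f ω).1 < c}) ∪ (Y ∩ {ω | c < (f ω).1}) ∪
        {ω | (f ω).1 = c} := by
      intro ω hω
      rcases lt_trichotomy (f ω).1 c with h | h | h
      · exact Or.inl (Or.inl ⟨hω, h⟩)
      · exact Or.inr h
      · exact Or.inl (Or.inr ⟨hω, h⟩)
    refine (measureReal_mono hcov).trans ((measureReal_union_le _ _).trans ?_)
    rw [hnull, add_zero]
    exact measureReal_union_le _ _
  have hPr : μ.real P / 2 ≤ μ.real (P ∩ {ω | c < (f ω).1}) := by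
    have := half P
    linarith
  have hcc : c0 ≤ (1 / 3) ^ 21 * (1 / 2) := by unfold c0; norm_num
  have bound : ∀ {m M r : ℝ}, 0 ≤ M → M / 2 ≤ m → (1 / 3) ^ 21 * m ≤ r → c0 * M ≤ r := by
    intro m M r hM hm hr
    calc c0 * M ≤ ((1 / 3) ^ 21 * (1 / 2)) * M := mul_le_mul_of_nonneg_right hcc hM
      _ = (1 / 3) ^ 21 * (M / 2) := by ring
      _ ≤ (1 / 3) ^ 21 * m := mul_le_mul_of_nonneg_left hm (by positivity)
      _ ≤ r := hr
  by_cases hq : μ.real Q / 2 ≤ μ.real (Q ∩ {ω | c < (f ω).1})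
  · obtain ⟨U, U', V, V', m1, m2, m3, m4, s1, s2, s3, s4, r1, r2, r3, r4, h⟩ :=
      six hf hline (hP.inter ml) (hQ.inter mr) ⟨c, fun ω hω => hω.2, fun ω hω => hω.2⟩
        (by rw [hc]; positivity) (by linarith)
    have hPl : μ.real P / 2 ≤ μ.real (P ∩ {ω | (f ω).1 < c}) := hc.ge
    exact ⟨U, U', V, V', m1, m2, m3, m4, s1.trans inter_subset_left,
      s2.trans inter_subset_left, s3.trans inter_subset_left, s4.trans inter_subset_left,
      bound hP0.le hPl r1, bound hP0.le hPl r2, bound hQ0.le hq r3, bound hQ0.le hq r4, h⟩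
  · have hq' : μ.real Q / 2 ≤ μ.real (Q ∩ {ω | (f ω).1 < c}) := by
      have := half Q
      have := not_le.1 hq
      linarith
    obtain ⟨U, U', V, V', m1, m2, m3, m4, s1, s2, s3, s4, r1, r2, r3, r4, h⟩ :=
      six hf hline (hQ.inter ml) (hP.inter mr) ⟨c, fun ω hω => hω.2, fun ω hω => hω.2⟩
        (by linarith) (by linarith)
    refine ⟨V, V', U, U', m3, m4, m1, m2, s3.trans inter_subset_left,
      s4.trans inter_subset_left, s1.trans inter_subset_left, s2.trans inter_subset_left,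
      bound hP0.le hPr r3, bound hP0.le hPr r4, bound hQ0.le hq' r1, bound hQ0.le hq' r2, ?_⟩
    intro u hu v hv u' hu' v' hv'
    exact ((h v hv u hu v' hv' u' hu').flip_left).flip_right

end Pool.Agent.Helper8.GC
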