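import Pool.Agent.Helper8.GC.Bil
import Pool.Agent.Helper8.GC.Generic
import Pool.Agent.Helper8.GC.Density

/-! The main theorem of project GC over a general probability space. -/

namespace Pool.Agent.Helper8.GC

open MeasureTheory Set

variable {Ω : Type*} [MeasurableSpace Ω]

theorem cdf_eq_bil (μ : Measure Ω) (W : Ω → Ω → ℝ) (f : Ω → ℝ × ℝ) :
    cdf μ W f = (1 / 8) * bil μ f (fun e => W e.1 e.2) (fun e => W e.1 e.2) := rfl

theorem cdf_nonneg {μ : Measure Ω} {W : Ω → Ω → ℝ} (hW : IsGraphon W) (f : Ω → ℝ × ℝ) :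
    0 ≤ cdf μ W f := by
  unfold cdf
  refine mul_nonneg (by norm_num) (integral_nonneg fun q => ?_)
  refine mul_nonneg (mul_nonneg (hW.nonneg _ _) (hW.nonneg _ _)) ?_
  exact indicator_nonneg (fun _ _ => zero_le_one) q

theorem cd_le {μ : Measure Ω} {W : Ω → Ω → ℝ} (hW : IsGraphon W) {f : Ω → ℝ × ℝ}
    (hf : IsDrawing f) : cd μ W ≤ cdf μ W f := by
  refine ciInf_le (f := fun f : {f : Ω → ℝ × ℝ // IsDrawing f} => cdf μ W f.1) ?_ ⟨f, hf⟩
  exact ⟨0, by rintro _ ⟨g, rfl⟩; exact cdf_nonneg hW _⟩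

theorem exists_cdf_lt {μ : Measure Ω} {W : Ω → Ω → ℝ} {δ : ℝ} (hδ : 0 < δ) :
    ∃ f : Ω → ℝ × ℝ, IsDrawing f ∧ cdf μ W f < cd μ W + δ := by
  have hne : Nonempty {f : Ω → ℝ × ℝ // IsDrawing f} :=
    ⟨⟨fun _ => 0, ⟨measurable_const, by
      refine Bornology.IsBounded.subset (Bornology.isBounded_singleton (x := (0 : ℝ × ℝ))) ?_
      rintro _ ⟨x, rfl⟩
      exact mem_singleton _⟩⟩⟩
  have h : cd μ W < cd μ W + δ := by linarith
  obtain ⟨f, hf⟩ := exists_lt_of_ciInf_lt h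
  exact ⟨f.1, f.2, hf⟩

/-- A lower bound for the measure of the intersection with a dense set. -/
theorem inter_large {μ : Measure Ω} [IsProbabilityMeasure μ] {E : Set (Ω × Ω)}
    {P Q U V : Set Ω} (hUP : U ⊆ P)
    (hVQ : V ⊆ Q) (hP0 : 0 < μ.real P) (hQ0 : 0 < μ.real Q)
    (hU : c0 * μ.real P ≤ μ.real U) (hV : c0 * μ.real Q ≤ μ.real V)
    (hE : (μ.prod μ).real ((P ×ˢ Q) \ E) ≤ (c0 ^ 2 / 10) * (μ.real P * μ.real Q)) :
    (9 / 10) * (μ.real U * μ.real V) ≤ (μ.prod μ).real ((U ×ˢ V) ∩ E) := by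
  have h1 : (μ.prod μ).real (U ×ˢ V) ≤
      (μ.prod μ).real ((U ×ˢ V) ∩ E) + (μ.prod μ).real ((U ×ˢ V) \ E) := by
    refine (measureReal_mono (le_of_eq (inter_union_diff (U ×ˢ V) E).symm)).trans ?_
    exact measureReal_union_le _ _
  have h2 : (μ.prod μ).real ((U ×ˢ V) \ E) ≤ (μ.prod μ).real ((P ×ˢ Q) \ E) :=
    measureReal_mono (diff_subset_diff_left (prod_mono hUP hVQ))
  rw [measureReal_prod_prod] at h1
  have h3 : c0 ^ 2 * (μ.real P * μ.real Q) ≤ μ.real U * μ.real V := by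
    have := mul_le_mul hU hV (mul_nonneg c0_pos.le hQ0.le) (measureReal_nonneg)
    calc c0 ^ 2 * (μ.real P * μ.real Q) = c0 * μ.real P * (c0 * μ.real Q) := by ring
      _ ≤ _ := this
  linarith

/-- The quadratic form of the test function is negative. -/
theorem quadratic_neg {μ : Measure Ω} [IsProbabilityMeasure μ] {f : Ω → ℝ × ℝ}
    (hf : Measurable f) (hg : Generic μ f) {U U' V V' : Set Ω} (mU : MeasurableSet U)
    (mU' : MeasurableSet U') (mV : MeasurableSet V) (mV' : MeasurableSet V')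
    (hcr : ∀ u ∈ U, ∀ v ∈ V, ∀ u' ∈ U', ∀ v' ∈ V', Cross (f u) (f v) (f u') (f v'))
    {A B : Set (Ω × Ω)} (mA : MeasurableSet A) (mB : MeasurableSet B)
    (hA : A ⊆ U ×ˢ V) (hB : B ⊆ U' ×ˢ V')
    (hA9 : (9 / 10) * (μ.real U * μ.real V) ≤ (μ.prod μ).real A)
    (hB9 : (9 / 10) * (μ.real U' * μ.real V') ≤ (μ.prod μ).real B)
    (hA0 : 0 < (μ.prod μ).real A) (hB0 : 0 < (μ.prod μ).real B) :
    bil μ f (fun e => (1 / (μ.prod μ).real A) * A.indicator (fun _ => (1 : ℝ)) e +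
        (-(1 / (μ.prod μ).real B)) * B.indicator (fun _ => (1 : ℝ)) e)
      (fun e => (1 / (μ.prod μ).real A) * A.indicator (fun _ => (1 : ℝ)) e +
        (-(1 / (μ.prod μ).real B)) * B.indicator (fun _ => (1 : ℝ)) e) ≤ -(1 / 2) := by
  set a := (μ.prod μ).real A with ha
  set b := (μ.prod μ).real B with hb
  have bA := bdd_indicator mA
  have bB := bdd_indicator mB
  rw [bil_add_left hf (bA.smul _) (bB.smul _) ((bA.smul _).add (bB.smul _)),
    bil_add_right hf (bA.smul _) (bA.smul _) (bB.smul _),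
    bil_add_right hf (bB.smul _) (bA.smul _) (bB.smul _)]
  simp only [bil_smul_left, bil_smul_right]
  have kAB := bil_indicator_full (μ := μ) hf mA mB (fun x hx y hy => by
    have h1 := hA hx
    have h2 := hB hy
    exact hcr _ h1.1 _ h1.2 _ h2.1 _ h2.2)
  have kBA := bil_indicator_full (μ := μ) hf mB mA (fun y hy x hx => by
    have h1 := hA hx
    have h2 := hB hy
    exact (hcr _ h1.1 _ h1.2 _ h2.1 _ h2.2).symm)
  have kAA : bil μ f (A.indicator (fun _ => (1 : ℝ))) (A.indicator (fun _ => (1 : ℝ))) ≤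
      (1 / 2) * (μ.real U * μ.real V) ^ 2 := by
    rw [bil_indicator hf mA mA]
    refine (measureReal_mono ?_).trans (swap_bound hf hg mU mV)
    exact inter_subset_inter_left _ (prod_mono hA hA)
  have kBB : bil μ f (B.indicator (fun _ => (1 : ℝ))) (B.indicator (fun _ => (1 : ℝ))) ≤
      (1 / 2) * (μ.real U' * μ.real V') ^ 2 := by
    rw [bil_indicator hf mB mB]
    refine (measureReal_mono ?_).trans (swap_bound hf hg mU' mV')
    exact inter_subset_inter_left _ (prod_mono hB hB)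
  rw [kAB, kBA]
  have s1 : (1 / 2) * (μ.real U * μ.real V) ^ 2 ≤ (50 / 81) * a ^ 2 := by
    have h0 : 0 ≤ μ.real U * μ.real V := mul_nonneg measureReal_nonneg measureReal_nonneg
    have : μ.real U * μ.real V ≤ (10 / 9) * a := by linarith
    have := pow_le_pow_left₀ h0 this 2
    nlinarith
  have s2 : (1 / 2) * (μ.real U' * μ.real V') ^ 2 ≤ (50 / 81) * b ^ 2 := by
    have h0 : 0 ≤ μ.real U' * μ.real V' := mul_nonneg measureReal_nonneg measureReal_nonneg
    have : μ.real U' * μ.real V' ≤ (10 / 9) * b := by linarith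
    have := pow_le_pow_left₀ h0 this 2
    nlinarith
  have r1 : 1 / a * (1 / a * bil μ f (A.indicator (fun _ => (1 : ℝ)))
      (A.indicator (fun _ => (1 : ℝ)))) ≤ 50 / 81 := by
    calc 1 / a * (1 / a * bil μ f (A.indicator (fun _ => (1 : ℝ)))
          (A.indicator (fun _ => (1 : ℝ)))) ≤ 1 / a * (1 / a * ((50 / 81) * a ^ 2)) := by
          have := kAA.trans s1
          gcongr
      _ = 50 / 81 := by field_simp
  have r2 : -(1 / b) * (-(1 / b) * bil μ f (B.indicator (fun _ => (1 : ℝ)))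
      (B.indicator (fun _ => (1 : ℝ)))) ≤ 50 / 81 := by
    calc -(1 / b) * (-(1 / b) * bil μ f (B.indicator (fun _ => (1 : ℝ)))
          (B.indicator (fun _ => (1 : ℝ))))
        = 1 / b * (1 / b * bil μ f (B.indicator (fun _ => (1 : ℝ)))
          (B.indicator (fun _ => (1 : ℝ)))) := by ring
      _ ≤ 1 / b * (1 / b * ((50 / 81) * b ^ 2)) := by
          have := kBB.trans s2
          gcongr
      _ = 50 / 81 := by field_simp
  have r3 : -(1 / b) * (1 / a * (a * b)) = -1 := by field_simp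
  have r4 : 1 / a * (-(1 / b) * (b * a)) = -1 := by field_simp
  have r3' : 1 / a * (-(1 / b) * (a * b)) = -1 := by field_simp
  have r4' : -(1 / b) * (1 / a * (b * a)) = -1 := by field_simp
  linarith

theorem bil_pert_left {μ : Measure Ω} [IsProbabilityMeasure μ] {f : Ω → ℝ × ℝ}
    (hf : Measurable f) {w g v : Ω × Ω → ℝ} (hw : Bdd w) (hg : Bdd g) (hv : Bdd v) (t : ℝ) :
    bil μ f (fun e => w e + t * (g e + g e.swap)) v = bil μ f w v + 2 * t * bil μ f g v := by
  rw [bil_add_left hf hw ((hg.add hg.swap).smul t) hv,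
    bil_smul_left (u := fun e => g e + g e.swap), bil_add_left hf hg hg.swap hv,
    bil_swap_left]
  ring

theorem bil_pert_right {μ : Measure Ω} [IsProbabilityMeasure μ] {f : Ω → ℝ × ℝ}
    (hf : Measurable f) {w g v : Ω × Ω → ℝ} (hw : Bdd w) (hg : Bdd g) (hv : Bdd v) (t : ℝ) :
    bil μ f v (fun e => w e + t * (g e + g e.swap)) = bil μ f v w + 2 * t * bil μ f v g := by
  rw [bil_add_right hf hv hw ((hg.add hg.swap).smul t),
    bil_smul_right (v := fun e => g e + g e.swap), bil_add_right hf hv hg hg.swap,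
    bil_swap_right]
  ring

/-- The perturbation step, uniformly in the generic drawing. -/
theorem perturb {μ : Measure Ω} [IsProbabilityMeasure μ] {W : Ω → Ω → ℝ} (hW : IsGraphon W)
    {ε₀ : ℝ} (hε : 0 < ε₀) {P Q : Set Ω} (mP : MeasurableSet P) (mQ : MeasurableSet Q)
    (hP0 : 0 < μ.real P) (hQ0 : 0 < μ.real Q)
    (hE : (μ.prod μ).real ((P ×ˢ Q) \ {e : Ω × Ω | ε₀ ≤ W e.1 e.2 ∧ W e.1 e.2 ≤ 1 - ε₀}) ≤
      (c0 ^ 2 / 10) * (μ.real P * μ.real Q)) :
    ∃ γ : ℝ, 0 < γ ∧ ∀ f : Ω → ℝ × ℝ, Measurable f → Generic μ f →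
      ∃ W' : Ω → Ω → ℝ, IsGraphon W' ∧ mass μ W' = mass μ W ∧
        cdf μ W' f ≤ cdf μ W f - γ := by
  set E : Set (Ω × Ω) := {e | ε₀ ≤ W e.1 e.2 ∧ W e.1 e.2 ≤ 1 - ε₀} with hEdef
  have mE : MeasurableSet E :=
    (measurableSet_le measurable_const hW.measurable).inter
      (measurableSet_le hW.measurable measurable_const)
  have hPQ : 0 < μ.real P * μ.real Q := mul_pos hP0 hQ0
  have hc := c0_pos
  obtain ⟨M, hM0, hM⟩ : ∃ M : ℝ, 0 < M ∧ 1 / ((9 / 10) * (c0 ^ 2 * (μ.real P * μ.real Q))) = M :=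
    ⟨_, by positivity, rfl⟩
  refine ⟨(ε₀ / (4 * M)) ^ 2 / 4, by positivity, ?_⟩
  intro f hf hg
  obtain ⟨U, U', V, V', mU, mU', mV, mV', sU, sU', sV, sV', rU, rU', rV, rV', hcr⟩ :=
    exists_crossing_sets hf hg mP mQ hP0 hQ0
  have mA : MeasurableSet ((U ×ˢ V) ∩ E) := (mU.prod mV).inter mE
  have mB : MeasurableSet ((U' ×ˢ V') ∩ E) := (mU'.prod mV').inter mE
  have hA9 := inter_large (E := E) sU sV hP0 hQ0 rU rV hE
  have hB9 := inter_large (E := E) sU' sV' hP0 hQ0 rU' rV' hE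
  have lowAB : ∀ {X Y : Set Ω}, c0 * μ.real P ≤ μ.real X → c0 * μ.real Q ≤ μ.real Y →
      c0 ^ 2 * (μ.real P * μ.real Q) ≤ μ.real X * μ.real Y := by
    intro X Y hX hY
    have := mul_le_mul hX hY (mul_nonneg hc.le hQ0.le) (measureReal_nonneg)
    calc c0 ^ 2 * (μ.real P * μ.real Q) = c0 * μ.real P * (c0 * μ.real Q) := by ring
      _ ≤ _ := this
  have hAlow : (9 / 10) * (c0 ^ 2 * (μ.real P * μ.real Q)) ≤ (μ.prod μ).real ((U ×ˢ V) ∩ E) :=
    (mul_le_mul_of_nonneg_left (lowAB rU rV) (by norm_num)).trans hA9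
  have hBlow : (9 / 10) * (c0 ^ 2 * (μ.real P * μ.real Q)) ≤
      (μ.prod μ).real ((U' ×ˢ V') ∩ E) :=
    (mul_le_mul_of_nonneg_left (lowAB rU' rV') (by norm_num)).trans hB9
  have hpos9 : 0 < (9 / 10 : ℝ) * (c0 ^ 2 * (μ.real P * μ.real Q)) := by positivity
  have hA0 := lt_of_lt_of_le hpos9 hAlow
  have hB0 := lt_of_lt_of_le hpos9 hBlow
  have hquad := quadratic_neg hf hg mU mU' mV mV' hcr mA mB inter_subset_left
    inter_subset_left hA9 hB9 hA0 hB0
  have bA := bdd_indicator mA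
  have bB := bdd_indicator mB
  set A : Set (Ω × Ω) := (U ×ˢ V) ∩ E with hAdef
  set B : Set (Ω × Ω) := (U' ×ˢ V') ∩ E with hBdef
  set a := (μ.prod μ).real A with ha
  set b := (μ.prod μ).real B with hb
  set g : Ω × Ω → ℝ := fun e => (1 / a) * A.indicator (fun _ => (1 : ℝ)) e +
    (-(1 / b)) * B.indicator (fun _ => (1 : ℝ)) e with hgdef
  have bg : Bdd g := (bA.smul _).add (bB.smul _)
  have haM : 1 / a ≤ M := by
    rw [← hM]; exact one_div_le_one_div_of_le hpos9 hAlow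
  have hbM : 1 / b ≤ M := by
    rw [← hM]; exact one_div_le_one_div_of_le hpos9 hBlow
  have hgb : ∀ e, |g e| ≤ 2 * M := by
    intro e
    have i1 : |A.indicator (fun _ => (1 : ℝ)) e| ≤ 1 := by
      by_cases h : e ∈ A <;> simp [h]
    have i2 : |B.indicator (fun _ => (1 : ℝ)) e| ≤ 1 := by
      by_cases h : e ∈ B <;> simp [h]
    have pa : 0 < 1 / a := by positivity
    have pb : 0 < 1 / b := by positivity
    calc |g e| ≤ |(1 / a) * A.indicator (fun _ => (1 : ℝ)) e| +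
          |(-(1 / b)) * B.indicator (fun _ => (1 : ℝ)) e| := abs_add_le _ _
      _ = (1 / a) * |A.indicator (fun _ => (1 : ℝ)) e| +
          (1 / b) * |B.indicator (fun _ => (1 : ℝ)) e| := by
          rw [abs_mul, abs_mul, abs_neg, abs_of_pos pa, abs_of_pos pb]
      _ ≤ (1 / a) * 1 + (1 / b) * 1 := by gcongr
      _ ≤ 2 * M := by linarith
  have hgE : ∀ e, e ∉ E → g e = 0 := by
    intro e he
    have e1 : e ∉ A := fun h => he h.2
    have e2 : e ∉ B := fun h => he h.2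
    simp [hgdef, e1, e2]
  -- choice of the sign
  set L := bil μ f (fun e => W e.1 e.2) g + bil μ f g (fun e => W e.1 e.2) with hL
  obtain ⟨t, ht, htL⟩ : ∃ t : ℝ, |t| = ε₀ / (4 * M) ∧ t * L ≤ 0 := by
    have h0 : 0 ≤ ε₀ / (4 * M) := by positivity
    rcases le_total L 0 with h | h
    · exact ⟨ε₀ / (4 * M), abs_of_nonneg h0, mul_nonpos_of_nonneg_of_nonpos h0 h⟩
    · refine ⟨-(ε₀ / (4 * M)), by rw [abs_neg, abs_of_nonneg h0], ?_⟩
      have := mul_nonneg h0 h
      linarith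
  have ht2 : t ^ 2 = (ε₀ / (4 * M)) ^ 2 := by rw [← ht, sq_abs]
  refine ⟨fun x y => W x y + t * (g (x, y) + g (y, x)), ⟨?_, ?_, ?_, ?_⟩, ?_, ?_⟩
  · exact hW.measurable.add ((bg.1.add (bg.1.comp measurable_swap)).const_mul t)
  · intro x y
    show W x y + t * (g (x, y) + g (y, x)) = W y x + t * (g (y, x) + g (x, y))
    rw [hW.symm x y]; ring
  · intro x y
    show 0 ≤ W x y + t * (g (x, y) + g (y, x))
    by_cases he : (x, y) ∈ E
    · have h1 : ε₀ ≤ W x y := he.1
      have h2 : |t * (g (x, y) + g (y, x))| ≤ ε₀ := by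
        rw [abs_mul, ht]
        calc ε₀ / (4 * M) * |g (x, y) + g (y, x)| ≤ ε₀ / (4 * M) * (2 * M + 2 * M) := by
              refine mul_le_mul_of_nonneg_left ?_ (by positivity)
              exact (abs_add_le _ _).trans (add_le_add (hgb _) (hgb _))
          _ = ε₀ := by field_simp; ring
      have := (abs_le.1 h2).1
      linarith
    · have he' : (y, x) ∉ E := by
        intro h
        refine he ?_
        have h1 : ε₀ ≤ W y x := h.1
        have h2 : W y x ≤ 1 - ε₀ := h.2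
        rw [hW.symm y x] at h1 h2
        exact ⟨h1, h2⟩
      rw [hgE _ he, hgE _ he']
      simpa using hW.nonneg x y
  · intro x y
    show W x y + t * (g (x, y) + g (y, x)) ≤ 1
    by_cases he : (x, y) ∈ E
    · have h1 : W x y ≤ 1 - ε₀ := he.2
      have h2 : |t * (g (x, y) + g (y, x))| ≤ ε₀ := by
        rw [abs_mul, ht]
        calc ε₀ / (4 * M) * |g (x, y) + g (y, x)| ≤ ε₀ / (4 * M) * (2 * M + 2 * M) := by
              refine mul_le_mul_of_nonneg_left ?_ (by positivity)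
              exact (abs_add_le _ _).trans (add_le_add (hgb _) (hgb _))
          _ = ε₀ := by field_simp; ring
      have := (abs_le.1 h2).2
      linarith
    · have he' : (y, x) ∉ E := by
        intro h
        refine he ?_
        have h1 : ε₀ ≤ W y x := h.1
        have h2 : W y x ≤ 1 - ε₀ := h.2
        rw [hW.symm y x] at h1 h2
        exact ⟨h1, h2⟩
      rw [hgE _ he, hgE _ he']
      simpa using hW.le_one x y
  · -- mass
    have iW : Integrable (fun e : Ω × Ω => W e.1 e.2) (μ.prod μ) := by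
      obtain ⟨m, C, hC⟩ := hW.bdd
      exact Integrable.of_bound m.aestronglyMeasurable C (Filter.Eventually.of_forall hC)
    have ig : Integrable g (μ.prod μ) :=
      Integrable.of_bound bg.1.aestronglyMeasurable (2 * M) (Filter.Eventually.of_forall hgb)
    have igs : Integrable (fun e : Ω × Ω => g e.swap) (μ.prod μ) :=
      Integrable.of_bound (bg.1.comp measurable_swap).aestronglyMeasurable (2 * M)
        (Filter.Eventually.of_forall fun e => hgb _)
    have z1 : ∫ e, g e ∂(μ.prod μ) = 0 := by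
      have iA : Integrable (fun e => (1 / a) * A.indicator (fun _ => (1 : ℝ)) e) (μ.prod μ) :=
        ((integrable_const (1 : ℝ)).indicator mA).const_mul _
      have iB : Integrable (fun e => (-(1 / b)) * B.indicator (fun _ => (1 : ℝ)) e)
          (μ.prod μ) := ((integrable_const (1 : ℝ)).indicator mB).const_mul _
      rw [hgdef, integral_add iA iB, integral_const_mul, integral_const_mul,
        integral_indicator mA, integral_indicator mB]
      simp only [integral_const, smul_eq_mul, mul_one, measureReal_restrict_apply_univ]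
      rw [← ha, ← hb]
      field_simp
      ring
    have z2 : ∫ e : Ω × Ω, g e.swap ∂(μ.prod μ) = 0 := by
      have := integral_prod_swap (μ := μ) (ν := μ) g
      rw [← z1]
      exact this
    unfold mass
    show ∫ e : Ω × Ω, (W e.1 e.2 + t * (g e + g e.swap)) ∂(μ.prod μ) = _
    have i3 : Integrable (fun e : Ω × Ω => t * (g e + g e.swap)) (μ.prod μ) :=
      (ig.add igs).const_mul t
    rw [integral_add iW i3, integral_const_mul, integral_add ig igs, z1, z2]
    ring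
  · -- density
    have key : cdf μ (fun x y => W x y + t * (g (x, y) + g (y, x))) f =
        (1 / 8) * bil μ f (fun e => W e.1 e.2 + t * (g e + g e.swap))
          (fun e => W e.1 e.2 + t * (g e + g e.swap)) := rfl
    have bw := hW.bdd
    have bw' : Bdd (fun e : Ω × Ω => W e.1 e.2 + t * (g e + g e.swap)) :=
      bw.add ((bg.add bg.swap).smul t)
    rw [key, bil_pert_left (w := fun e => W e.1 e.2) hf bw bg bw' t,
      bil_pert_right (w := fun e => W e.1 e.2) hf bw bg bw t,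
      bil_pert_right (w := fun e => W e.1 e.2) hf bw bg bg t, cdf_eq_bil]
    have e1 : bil μ f (fun e => W e.1 e.2) (fun e => W e.1 e.2) +
          2 * t * bil μ f (fun e => W e.1 e.2) g +
        2 * t * (bil μ f g (fun e => W e.1 e.2) + 2 * t * bil μ f g g) =
        bil μ f (fun e => W e.1 e.2) (fun e => W e.1 e.2) + 2 * (t * L) +
          4 * t ^ 2 * bil μ f g g := by rw [hL]; ring
    rw [e1]
    have e2 : 4 * t ^ 2 * bil μ f g g ≤ 4 * t ^ 2 * (-(1 / 2)) :=
      mul_le_mul_of_nonneg_left hquad (by positivity)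
    rw [ht2] at e2 ⊢
    linarith

theorem main_abstract {μ : Measure Ω}
    [IsProbabilityMeasure μ] (hD : HasDensity μ)
    (hc : ∃ c : Ω → ℝ × ℝ, IsDrawing c ∧ Generic μ c)
    {W : Ω → Ω → ℝ} (hW : IsGraphon W)
    (hmin : ∀ W' : Ω → Ω → ℝ, IsGraphon W' → mass μ W' = mass μ W → cd μ W ≤ cd μ W') :
    ∀ᵐ e : Ω × Ω ∂(μ.prod μ), W e.1 e.2 = 0 ∨ W e.1 e.2 = 1 := by
  rw [ae_iff]
  by_contra hne
  have hsub : {e : Ω × Ω | ¬ (W e.1 e.2 = 0 ∨ W e.1 e.2 = 1)} ⊆
      ⋃ n : ℕ, {e : Ω × Ω | 1 / ((n : ℝ) + 1) ≤ W e.1 e.2 ∧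
        W e.1 e.2 ≤ 1 - 1 / ((n : ℝ) + 1)} := by
    intro e he
    have h01 : ¬ (W e.1 e.2 = 0 ∨ W e.1 e.2 = 1) := he
    have h0 : 0 < W e.1 e.2 := lt_of_le_of_ne (hW.nonneg _ _) (fun h => h01 (Or.inl h.symm))
    have h1 : W e.1 e.2 < 1 := lt_of_le_of_ne (hW.le_one _ _) (fun h => h01 (Or.inr h))
    obtain ⟨n, hn⟩ := exists_nat_one_div_lt (lt_min h0 (sub_pos.2 h1))
    refine mem_iUnion.2 ⟨n, ?_, ?_⟩
    · exact (hn.trans_le (min_le_left _ _)).le
    · have := (hn.trans_le (min_le_right _ _)).le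
      linarith
  have hpos : ∃ n : ℕ, (μ.prod μ) {e : Ω × Ω | 1 / ((n : ℝ) + 1) ≤ W e.1 e.2 ∧
      W e.1 e.2 ≤ 1 - 1 / ((n : ℝ) + 1)} ≠ 0 := by
    by_contra hall
    push_neg at hall
    exact hne (measure_mono_null hsub (measure_iUnion_null hall))
  obtain ⟨n, hn⟩ := hpos
  have hε : (0 : ℝ) < 1 / ((n : ℝ) + 1) := by positivity
  set ε₀ : ℝ := 1 / ((n : ℝ) + 1) with hε₀
  have mE : MeasurableSet {e : Ω × Ω | ε₀ ≤ W e.1 e.2 ∧ W e.1 e.2 ≤ 1 - ε₀} :=
    (measurableSet_le measurable_const hW.measurable).inter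
      (measurableSet_le hW.measurable measurable_const)
  obtain ⟨P, Q, mP, mQ, -, hP0, hQ0, hE⟩ := hD _ mE (pos_iff_ne_zero.2 hn) (c0 ^ 2 / 10)
    (by have := c0_pos; positivity)
  obtain ⟨γ, hγ, hstep⟩ := perturb hW hε mP mQ hP0 hQ0 hE
  obtain ⟨c, hc1, hc2⟩ := hc
  obtain ⟨f, hf1, hf2⟩ := exists_cdf_lt (μ := μ) (W := W) (half_pos hγ)
  obtain ⟨f', hf1', hg', hf2'⟩ := exists_generic μ hc1 hc2 hW hf1 (half_pos (half_pos hγ))
  obtain ⟨W', hW', hmass, hcdf⟩ := hstep f' hf1'.measurable hg'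
  have h1 := hmin W' hW' hmass
  have h2 := cd_le (μ := μ) hW' hf1'
  linarith

end Pool.Agent.Helper8.GC
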